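import Mathlib
import Pool.Agent.Helper669.Forcing

/-!
# Squares of `Δ`-sets: the sentence of the forcing language

The file `Pool.Agent.Helper669.Forcing` renders the forcing relation: a sentence of the forcing
language of the preordered set `P` is the set of the conditions which force it. A point of the
Cantor space of the extension is named by `x : ℕ → Set P`; its digit number `i` is `true` iff
the generic filter meets `x i`. A subset of a ground model set `T` is named by a map from `T` to
`Set P`. A set of points of the Cantor space of the extension is given by an injective enumeration
`E : K → ℕ → Set P` over a ground model set `K`.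
-/

set_option autoImplicit false

namespace Pool.Agent.U83.DSq

open Pool.Agent.Helper669.Forcing

universe u

variable {P : Type u} [Preorder P]

/-- The digit number `i` of `x` is `b`. -/
def Digit (x : ℕ → Set P) (i : ℕ) (b : Bool) : Set P :=
  match b with
  | true => meets (x i)
  | false => fnot (meets (x i))

/-- The finite sequence `s` is an initial segment of `x`. -/
def Stem (s : List Bool) (x : ℕ → Set P) : Set P :=
  fall fun i : ℕ => fall fun b : Bool => fimp (fground (s[i]? = some b)) (Digit x i b)

/-- The points `x` and `y` differ at some digit. -/
def Distinct (x y : ℕ → Set P) : Set P :=
  fex fun i : ℕ => fex fun b : Bool => fand (Digit x i b) (Digit y i (!b))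

/-- The sets named by `Z 0, Z 1, ...` form a partition of `T`. -/
def IsPartition {T : Type} (Z : ℕ → T → Set P) : Set P :=
  fand (fall fun t => fex fun n => meets (Z n t))
    (fall fun t => fall fun n => fall fun n' =>
      fimp (fand (meets (Z n t)) (meets (Z n' t))) (fground (n = n')))

/-- Every partition `Z 0, Z 1, ...` of `T` has a point-finite expansion `U 0, U 1, ...`. Here the
sets `U n` are given by codes, which are subsets of `C`, and `In c t` says that `t` belongs to
the set with the code `c`. -/
def Expandable {T C : Type} (In : (C → Set P) → T → Set P) : Set P :=
  fall fun Z : ℕ → T → Set P => fimp (IsPartition Z) (fex fun U : ℕ → C → Set P =>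
    fand (fall fun n => fall fun t => fimp (meets (Z n t)) (In (U n) t))
      (fall fun t => fex fun m : ℕ => fall fun n : ℕ =>
        fimp (fground (m ≤ n)) (fnot (In (U n) t))))

/-- The point number `k` is in the union of the basic sets `[s]` with `s` in `U`. -/
def In1 {K : Type} (E : K → ℕ → Set P) (U : List Bool → Set P) (k : K) : Set P :=
  fex fun s : List Bool => fand (meets (U s)) (Stem s (E k))

/-- The pair of the points number `k.1` and `k.2` is in the union of the basic sets
`[s.1] × [s.2]` with `s` in `U`. -/
def In2 {K : Type} (E : K → ℕ → Set P) (U : List Bool × List Bool → Set P) (k : K × K) : Set P :=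
  fex fun s : List Bool × List Bool =>
    fand (meets (U s)) (fand (Stem s.1 (E k.1)) (Stem s.2 (E k.2)))

/-- The sentence of the forcing language of `P` which says that there is a subset of the Cantor
space (enumerated by `E` without repetitions) which is a `Δ`-space and whose square is not a
`Δ`-space. -/
def DeltaSquare (P : Type u) [Preorder P] : Set P :=
  fex fun K : Type => fex fun E : K → ℕ → Set P =>
    fand (fall fun k => fall fun k' => fimp (fground (k ≠ k')) (Distinct (E k) (E k')))
      (fand (Expandable (In1 E)) (fnot (Expandable (In2 E))))

end Pool.Agent.U83.DSq
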