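import Mathlib
import Pool.Agent.U83.DSq.Sentence

/-!
# Squares of `Δ`-sets: the meaning of the sentence in the ground model

For the one-element notion of forcing the sentence `DeltaSquare` says that there is a `Δ`-set of
reals whose square is not a `Δ`-set.
-/

set_option autoImplicit false

open Set Pool.Agent.Helper669.Forcing Topology

namespace Pool.Agent.U83.DSq

/-- A `Δ`-space: every partition into countably many pairwise disjoint sets has a point-finite open
expansion. -/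
def IsDeltaSpace (T : Type) [TopologicalSpace T] : Prop :=
  ∀ Z : ℕ → Set T, Pairwise (fun m n => Disjoint (Z m) (Z n)) → (⋃ n, Z n) = univ →
    ∃ U : ℕ → Set T, (∀ n, IsOpen (U n) ∧ Z n ⊆ U n) ∧ ∀ x, {n | x ∈ U n}.Finite

theorem IsDeltaSpace.homeo {T T' : Type} [TopologicalSpace T] [TopologicalSpace T']
    (h : IsDeltaSpace T) (e : T ≃ₜ T') : IsDeltaSpace T' := by
  intro Z hZ hZ'
  obtain ⟨U, hU, hf⟩ := h (fun n => e ⁻¹' Z n) (fun m n hmn => (hZ hmn).preimage e) (by
    rw [← Set.preimage_iUnion, hZ', Set.preimage_univ])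
  refine ⟨fun n => e.symm ⁻¹' U n, fun n => ⟨(hU n).1.preimage e.symm.continuous, ?_⟩, ?_⟩
  · intro x hx
    apply (hU n).2
    show e (e.symm x) ∈ Z n
    rwa [e.apply_symm_apply]
  · intro x
    exact hf (e.symm x)

theorem isDeltaSpace_congr {T T' : Type} [TopologicalSpace T] [TopologicalSpace T']
    (e : T ≃ₜ T') : IsDeltaSpace T ↔ IsDeltaSpace T' :=
  ⟨fun h => h.homeo e, fun h => h.homeo e.symm⟩

/-! ### The forcing language of the one-element notion of forcing -/

theorem unit_fnot {φ : Set Unit} : () ∈ fnot φ ↔ () ∉ φ :=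
  ⟨fun h => h () le_rfl, fun h _ _ => h⟩

theorem unit_fimp {φ ψ : Set Unit} : () ∈ fimp φ ψ ↔ (() ∈ φ → () ∈ ψ) := by
  rw [mem_fimp]
  constructor
  · intro h h'
    obtain ⟨_, -, hr⟩ := h () le_rfl h'
    exact hr
  · intro h q _ hq
    exact ⟨q, le_rfl, h hq⟩

theorem unit_fex {ι : Sort*} {φ : ι → Set Unit} : () ∈ fex φ ↔ ∃ i, () ∈ φ i := by
  rw [mem_fex]
  constructor
  · intro h
    obtain ⟨_, -, i, hi⟩ := h () le_rfl
    exact ⟨i, hi⟩
  · rintro ⟨i, hi⟩ q _
    exact ⟨q, le_rfl, i, hi⟩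

theorem unit_meets {N : Set Unit} : () ∈ meets N ↔ () ∈ N := by
  constructor
  · intro h
    obtain ⟨_, -, s, hs, -⟩ := h () le_rfl
    exact hs
  · intro h
    exact meets_of_mem h

/-- The point of the Cantor space given by a name. -/
noncomputable def pt (x : ℕ → Set Unit) : ℕ → Bool := by
  classical exact fun i => decide (() ∈ x i)

theorem unit_Digit {x : ℕ → Set Unit} {i : ℕ} {b : Bool} : () ∈ Digit x i b ↔ pt x i = b := by
  classical
  cases b
  · show () ∈ fnot (meets (x i)) ↔ _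
    rw [unit_fnot, unit_meets]
    simp [pt]
  · show () ∈ meets (x i) ↔ _
    rw [unit_meets]
    simp [pt]

theorem unit_Stem {x : ℕ → Set Unit} {s : List Bool} :
    () ∈ Stem s x ↔ ∀ i b, s[i]? = some b → pt x i = b := by
  constructor
  · intro h i b hi
    exact unit_Digit.1 (unit_fimp.1 (h i b) hi)
  · intro h i b
    exact unit_fimp.2 fun hi => unit_Digit.2 (h i b hi)

theorem unit_Distinct {x y : ℕ → Set Unit} : () ∈ Distinct x y ↔ pt x ≠ pt y := by
  unfold Distinct
  rw [unit_fex]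
  constructor
  · rintro ⟨i, hi⟩
    rw [unit_fex] at hi
    obtain ⟨b, h1, h2⟩ := hi
    rw [unit_Digit] at h1 h2
    intro he
    rw [he, h2] at h1
    cases b <;> cases h1
  · intro h
    obtain ⟨i, hi⟩ := Function.ne_iff.1 h
    refine ⟨i, unit_fex.2 ⟨pt x i, unit_Digit.2 rfl, unit_Digit.2 ?_⟩⟩
    cases h1 : pt x i <;> cases h2 : pt y i <;> simp_all

/-- A space with a coded basis is a `Δ`-space iff the corresponding sentence holds. -/
theorem unit_Expandable {T C : Type} [TopologicalSpace T] {B : C → Set T}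
    (hB : ∀ c, IsOpen (B c)) (hB' : ∀ O : Set T, IsOpen O → ∀ t ∈ O, ∃ c, t ∈ B c ∧ B c ⊆ O)
    {In : (C → Set Unit) → T → Set Unit}
    (hIn : ∀ U t, () ∈ In U t ↔ ∃ c, () ∈ U c ∧ t ∈ B c) :
    () ∈ Expandable In ↔ IsDeltaSpace T := by
  classical
  constructor
  · intro h Z hZ hZ'
    have h1 := unit_fimp.1 (h fun n t => {_u | t ∈ Z n}) (by
      refine ⟨fun t => unit_fex.2 ?_, fun t n n' => unit_fimp.2 ?_⟩
      · have : t ∈ ⋃ n, Z n := by rw [hZ']; exact Set.mem_univ t
        obtain ⟨n, hn⟩ := Set.mem_iUnion.1 this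
        exact ⟨n, unit_meets.2 hn⟩
      · rintro ⟨h1, h2⟩
        rw [unit_meets] at h1 h2
        by_contra hne
        exact Set.disjoint_left.1 (hZ (show n ≠ n' from hne)) h1 h2)
    obtain ⟨U, hU1, hU2⟩ := unit_fex.1 h1
    refine ⟨fun n => ⋃ c ∈ {c | () ∈ U n c}, B c, fun n => ⟨?_, ?_⟩, ?_⟩
    · exact isOpen_biUnion fun c _ => hB c
    · intro t ht
      obtain ⟨c, hc, htc⟩ := (hIn _ _).1 (unit_fimp.1 (hU1 n t) (unit_meets.2 ht))
      exact Set.mem_biUnion hc htc
    · intro t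
      obtain ⟨m, hm⟩ := unit_fex.1 (hU2 t)
      refine (Set.finite_lt_nat m).subset ?_
      intro n hn
      by_contra hmn
      have h2 := unit_fimp.1 (hm n) (show m ≤ n from not_lt.1 hmn)
      rw [unit_fnot, hIn] at h2
      obtain ⟨c, hc, htc⟩ := Set.mem_iUnion₂.1 hn
      exact h2 ⟨c, hc, htc⟩
  · intro h Z
    rw [unit_fimp]
    intro hZ
    obtain ⟨U, hU1, hU2⟩ := h (fun n => {t | () ∈ Z n t}) (by
      intro m n hmn
      rw [Set.disjoint_left]
      intro t h1 h2
      exact hmn (unit_fimp.1 (hZ.2 t m n) ⟨unit_meets.2 h1, unit_meets.2 h2⟩)) (by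
      refine Set.eq_univ_of_forall fun t => ?_
      obtain ⟨n, hn⟩ := unit_fex.1 (hZ.1 t)
      exact Set.mem_iUnion.2 ⟨n, unit_meets.1 hn⟩)
    have hIn' : ∀ n t, () ∈ In (fun c => {_u | B c ⊆ U n}) t ↔ t ∈ U n := by
      intro n t
      rw [hIn]
      constructor
      · rintro ⟨c, hc, htc⟩
        exact hc htc
      · intro ht
        obtain ⟨c, h1, h2⟩ := hB' _ (hU1 n).1 t ht
        exact ⟨c, h2, h1⟩
    refine unit_fex.2 ⟨fun n c => {_u | B c ⊆ U n}, ?_, ?_⟩
    · intro n t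
      rw [unit_fimp]
      intro ht
      exact (hIn' n t).2 ((hU1 n).2 (unit_meets.1 ht))
    · intro t
      refine unit_fex.2 ?_
      obtain ⟨m, hm⟩ := (hU2 t).bddAbove
      refine ⟨m + 1, fun n => unit_fimp.2 fun hmn => unit_fnot.2 ?_⟩
      rw [hIn']
      intro ht
      have h3 : n ≤ m := hm ht
      have h4 : m + 1 ≤ n := hmn
      omega

/-! ### The Cantor space -/

/-- The basic set of the finite sequence `s`. -/
def cyl (s : List Bool) : Set (ℕ → Bool) := {x | ∀ i b, s[i]? = some b → x i = b}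

theorem isOpen_cyl (s : List Bool) : IsOpen (cyl s) := by
  have : cyl s = ⋂ i ∈ Set.Iio s.length, {x : ℕ → Bool | ∀ b, s[i]? = some b → x i = b} := by
    ext x
    simp only [cyl, Set.mem_ofPred_eq, Set.mem_iInter, Set.mem_Iio]
    constructor
    · intro h i _ b hb
      exact h i b hb
    · intro h i b hb
      refine h i ?_ b hb
      exact (List.getElem?_eq_some_iff.1 hb).1
  rw [this]
  refine (Set.finite_Iio _).isOpen_biInter fun i _ => ?_
  have h2 : {x : ℕ → Bool | ∀ b, s[i]? = some b → x i = b} =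
      (fun x : ℕ → Bool => x i) ⁻¹' {c | ∀ b, s[i]? = some b → c = b} := rfl
  rw [h2]
  exact (isOpen_discrete _).preimage (continuous_apply i)

theorem exists_cyl {O : Set (ℕ → Bool)} (hO : IsOpen O) {x : ℕ → Bool} (hx : x ∈ O) :
    ∃ s, x ∈ cyl s ∧ cyl s ⊆ O := by
  obtain ⟨I, u, hu, hIu⟩ := isOpen_pi_iff.1 hO x hx
  obtain ⟨L, hL⟩ := I.bddAbove
  refine ⟨(List.range (L + 1)).map x, ?_, ?_⟩
  · intro i b hb
    rw [List.getElem?_map] at hb
    by_cases hi : i < L + 1
    · simpa [hi] using hb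
    · simp [hi] at hb
  · intro y hy
    apply hIu
    intro i hi
    have : y i = x i := by
      apply hy i (x i)
      have hiL : i ≤ L := hL hi
      rw [List.getElem?_map, List.getElem?_range (by omega)]
      rfl
    rw [this]
    exact (hu i hi).2

theorem unit_In1 {K : Type} {E : K → ℕ → Set Unit} {U : List Bool → Set Unit} {k : K} :
    () ∈ In1 E U k ↔ ∃ s, () ∈ U s ∧ k ∈ (fun k => pt (E k)) ⁻¹' cyl s := by
  unfold In1
  rw [unit_fex]
  refine exists_congr fun s => ?_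
  exact and_congr unit_meets unit_Stem

theorem unit_In2 {K : Type} {E : K → ℕ → Set Unit} {U : List Bool × List Bool → Set Unit}
    {k : K × K} : () ∈ In2 E U k ↔ ∃ s, () ∈ U s ∧
      k ∈ ((fun k => pt (E k)) ⁻¹' cyl s.1) ×ˢ ((fun k => pt (E k)) ⁻¹' cyl s.2) := by
  unfold In2
  rw [unit_fex]
  refine exists_congr fun s => ?_
  exact and_congr unit_meets (and_congr unit_Stem unit_Stem)

theorem unit_Expandable1 {K : Type} [TopologicalSpace K] {E : K → ℕ → Set Unit}
    (hE : IsInducing fun k => pt (E k)) :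
    () ∈ Expandable (In1 E) ↔ IsDeltaSpace K := by
  refine unit_Expandable (B := fun s => (fun k => pt (E k)) ⁻¹' cyl s)
    (fun s => (isOpen_cyl s).preimage hE.continuous) ?_ (fun U k => unit_In1)
  intro O hO t ht
  obtain ⟨O', hO', rfl⟩ := hE.isOpen_iff.1 hO
  obtain ⟨s, h1, h2⟩ := exists_cyl hO' ht
  exact ⟨s, h1, Set.preimage_mono h2⟩

theorem unit_Expandable2 {K : Type} [TopologicalSpace K] {E : K → ℕ → Set Unit}
    (hE : IsInducing fun k => pt (E k)) :
    () ∈ Expandable (In2 E) ↔ IsDeltaSpace (K × K) := by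
  refine unit_Expandable (B := fun s : List Bool × List Bool =>
    ((fun k => pt (E k)) ⁻¹' cyl s.1) ×ˢ ((fun k => pt (E k)) ⁻¹' cyl s.2))
    (fun s => ((isOpen_cyl s.1).preimage hE.continuous).prod
      ((isOpen_cyl s.2).preimage hE.continuous)) ?_ (fun U k => unit_In2)
  rintro O hO ⟨t, t'⟩ ht
  obtain ⟨u, v, hu, hv, htu, htv, huv⟩ := isOpen_prod_iff.1 hO t t' ht
  obtain ⟨u', hu', rfl⟩ := hE.isOpen_iff.1 hu
  obtain ⟨v', hv', rfl⟩ := hE.isOpen_iff.1 hv
  obtain ⟨s, h1, h2⟩ := exists_cyl hu' htu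
  obtain ⟨s', h1', h2'⟩ := exists_cyl hv' htv
  exact ⟨(s, s'), ⟨h1, h1'⟩, (Set.prod_mono (Set.preimage_mono h2) (Set.preimage_mono h2')).trans
    huv⟩

end Pool.Agent.U83.DSq
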