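import Mathlib
import Pool.Agent.U83.DSq.Plain

/-!
# Squares of `Δ`-sets: from the Cantor space to the real line
-/

set_option autoImplicit false

open Set Pool.Agent.Helper669.Forcing Topology

namespace Pool.Agent.U83.DSq

/-- The complement of a `Δ`-set of reals is dense. -/
theorem IsDeltaSpace.dense_compl {X : Set ℝ} (hX : IsDeltaSpace X) : Dense Xᶜ := by
  classical
  by_contra hd
  -- an open set contained in `X`
  obtain ⟨O, hO, hOne, hOX⟩ : ∃ O : Set ℝ, IsOpen O ∧ O.Nonempty ∧ O ⊆ X := by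
    refine ⟨interior X, isOpen_interior, ?_, interior_subset⟩
    rw [Set.nonempty_iff_ne_empty]
    intro h
    exact hd (interior_eq_empty_iff_dense_compl.1 h)
  let q : ℕ → ℝ := fun n => (((Denumerable.eqv ℚ).symm n : ℚ) : ℝ)
  have hq : Function.Injective q := fun a b h =>
    (Denumerable.eqv ℚ).symm.injective (Rat.cast_injective h)
  have hqd : Dense (Set.range q) := by
    have h1 : Set.range q = Set.range ((↑) : ℚ → ℝ) := by
      ext x
      constructor
      · rintro ⟨n, rfl⟩
        exact ⟨_, rfl⟩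
      · rintro ⟨r, rfl⟩
        exact ⟨Denumerable.eqv ℚ r, by simp [q]⟩
    rw [h1]
    exact Rat.denseRange_cast
  let f : ℝ → ℕ := fun x => if h : ∃ n, q n = x then h.choose + 1 else 0
  have hf : ∀ n, f (q n) = n + 1 := by
    intro n
    have h : ∃ m, q m = q n := ⟨n, rfl⟩
    have h1 : f (q n) = h.choose + 1 := dif_pos h
    rw [h1, hq h.choose_spec]
  obtain ⟨U, hU, hfin⟩ := hX (fun n => {x : X | f x.1 = n}) (by
    intro m n hmn
    rw [Set.disjoint_left]
    intro x h1 h2
    exact hmn ((show f x.1 = m from h1).symm.trans h2)) (by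
    refine Set.eq_univ_of_forall fun x => ?_
    exact Set.mem_iUnion.2 ⟨f x.1, rfl⟩)
  have hV : ∀ n, ∃ V : Set ℝ, IsOpen V ∧ ∀ x : X, x.1 ∈ V ↔ x ∈ U n := by
    intro n
    obtain ⟨V, hV, hVU⟩ := isOpen_induced_iff.1 (hU n).1
    refine ⟨V, hV, fun x => ?_⟩
    rw [← hVU]
    rfl
  choose V hVo hV using hV
  let G : ℕ → Set ℝ := fun m => (⋃ n ∈ Set.Ici m, O ∩ V n) ∪ (closure O)ᶜ
  have hGo : ∀ m, IsOpen (G m) := fun m =>
    (isOpen_biUnion fun n _ => hO.inter (hVo n)).union isClosed_closure.isOpen_compl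
  have hGd : ∀ m, Dense (G m) := by
    intro m
    rw [dense_iff_inter_open]
    intro W hW hWne
    by_cases hWO : (W ∩ O).Nonempty
    · obtain ⟨y, ⟨hyW, hyO⟩, ⟨n, rfl⟩, hyn⟩ := (hqd.sdiff_finite ((Set.finite_lt_nat m).image
        q)).inter_open_nonempty _ (hW.inter hO) hWO
      have hmn : m ≤ n := by
        by_contra hlt
        exact hyn ⟨n, not_le.1 hlt, rfl⟩
      refine ⟨q n, hyW, Or.inl (Set.mem_biUnion (show n + 1 ∈ Set.Ici m from
        le_trans hmn (Nat.le_succ n)) ⟨hyO, ?_⟩)⟩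
      exact (hV (n + 1) ⟨q n, hOX hyO⟩).2 ((hU (n + 1)).2 (hf n))
    · obtain ⟨y, hy⟩ := hWne
      refine ⟨y, hy, Or.inr ?_⟩
      intro hcl
      exact hWO (mem_closure_iff.1 hcl W hW hy)
  obtain ⟨y, hyO, hy⟩ := (dense_iInter_of_isOpen_nat hGo hGd).inter_open_nonempty O hO hOne
  obtain ⟨m, hm⟩ := (hfin ⟨y, hOX hyO⟩).bddAbove
  have h1 := Set.mem_iInter.1 hy (m + 1)
  rcases h1 with h1 | h1
  · obtain ⟨n, hn, -, hyn⟩ := Set.mem_iUnion₂.1 h1
    have h2 : n ≤ m := hm ((hV n ⟨y, hOX hyO⟩).1 hyn)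
    have h3 : m + 1 ≤ n := hn
    omega
  · exact h1 (subset_closure hyO)

/-- A set of reals whose complement is dense embeds into the Cantor space. -/
theorem exists_inducing {X : Set ℝ} (hX : Dense Xᶜ) :
    ∃ j : X → ℕ → Bool, IsInducing j ∧ Function.Injective j := by
  classical
  obtain ⟨t, htX, htc, htd⟩ := hX.exists_countable_dense_subset
  obtain ⟨c, hc⟩ := htc.exists_eq_range htd.nonempty
  have hcX : ∀ i, c i ∉ X := fun i => htX (by rw [hc]; exact ⟨i, rfl⟩)
  have hbt : ∀ {x y : ℝ}, x < y → ∃ i, x < c i ∧ c i < y := by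
    intro x y hxy
    obtain ⟨z, hz, h1, h2⟩ := htd.exists_between hxy
    rw [hc] at hz
    obtain ⟨i, rfl⟩ := hz
    exact ⟨i, h1, h2⟩
  let j : X → ℕ → Bool := fun x i => decide (c i < x.1)
  have hj : ∀ x i, j x i = true ↔ c i < x.1 := fun x i => decide_eq_true_iff
  have hj' : ∀ x i, j x i = false ↔ x.1 < c i := by
    intro x i
    have h1 : j x i = false ↔ ¬ (c i < x.1) := decide_eq_false_iff_not
    rw [h1, not_lt]
    constructor
    · intro h
      exact lt_of_le_of_ne h fun e => hcX i (by rw [← e]; exact x.2)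
    · intro h
      exact h.le
  have hcont : Continuous j := by
    refine continuous_pi fun i => continuous_discrete_rng.2 fun b => ?_
    cases b
    · have : (fun x => j x i) ⁻¹' {false} = Subtype.val ⁻¹' Set.Iio (c i) := by
        ext x
        exact hj' x i
      rw [this]
      exact isOpen_Iio.preimage continuous_subtype_val
    · have : (fun x => j x i) ⁻¹' {true} = Subtype.val ⁻¹' Set.Ioi (c i) := by
        ext x
        exact hj x i
      rw [this]
      exact isOpen_Ioi.preimage continuous_subtype_val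
  refine ⟨j, ?_, ?_⟩
  · refine isInducing_iff_nhds.2 fun x => le_antisymm (hcont.tendsto x).le_comap ?_
    intro s hs
    rw [nhds_subtype_eq_comap, Filter.mem_comap] at hs
    obtain ⟨u, hu, hus⟩ := hs
    obtain ⟨a, b, ⟨hax, hxb⟩, hab⟩ := mem_nhds_iff_exists_Ioo_subset.1 hu
    obtain ⟨i, hai, hix⟩ := hbt hax
    obtain ⟨k, hxk, hkb⟩ := hbt hxb
    rw [Filter.mem_comap]
    refine ⟨{y | y i = true} ∩ {y | y k = false}, ?_, ?_⟩
    · refine IsOpen.mem_nhds (IsOpen.inter ?_ ?_) ⟨(hj x i).2 hix, (hj' x k).2 hxk⟩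
      · exact (isOpen_discrete {true}).preimage
          (continuous_apply i : Continuous fun y : ℕ → Bool => y i)
      · exact (isOpen_discrete {false}).preimage
          (continuous_apply k : Continuous fun y : ℕ → Bool => y k)
    · rintro z ⟨h1, h2⟩
      exact hus (hab ⟨hai.trans ((hj z i).1 h1), ((hj' z k).1 h2).trans hkb⟩)
  · intro x y hxy
    by_contra hne
    have hne' : x.1 ≠ y.1 := fun h => hne (Subtype.ext h)
    rcases lt_or_gt_of_ne hne' with h | h
    · obtain ⟨i, h1, h2⟩ := hbt h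
      have h3 := (hj' x i).2 h1
      have h4 := (hj y i).2 h2
      rw [hxy, h4] at h3
      cases h3
    · obtain ⟨i, h1, h2⟩ := hbt h
      have h3 := (hj' y i).2 h1
      have h4 := (hj x i).2 h2
      rw [hxy, h3] at h4
      cases h4

/-- The Cantor space embeds into the real line. -/
theorem exists_cantor_embedding : ∃ g : (ℕ → Bool) → ℝ, IsEmbedding g := by
  obtain ⟨g, -, hg, hinj⟩ := (show Perfect (Set.univ : Set ℝ) from
    ⟨isClosed_univ, fun x _ => by
      rw [accPt_iff_nhds]
      intro U hU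
      obtain ⟨a, b, ⟨hax, hxb⟩, hab⟩ := mem_nhds_iff_exists_Ioo_subset.1 hU
      obtain ⟨y, h1, h2⟩ := exists_between hxb
      exact ⟨y, ⟨hab ⟨hax.trans h1, h2⟩, Set.mem_univ y⟩, h1.ne'⟩⟩).exists_nat_bool_injection
    ⟨0, Set.mem_univ _⟩
  exact ⟨g, (hg.isClosedEmbedding hinj).isEmbedding⟩

/-- **The meaning of the sentence in the ground model.** -/
theorem unit_DeltaSquare : () ∈ DeltaSquare Unit ↔
    ∃ X : Set ℝ, IsDeltaSpace X ∧ ¬ IsDeltaSpace (X ×ˢ X : Set (ℝ × ℝ)) := by
  unfold DeltaSquare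
  rw [unit_fex]
  constructor
  · rintro ⟨K, h⟩
    obtain ⟨E, hinj, h1, h2⟩ := unit_fex.1 h
    obtain ⟨g, hg⟩ := exists_cantor_embedding
    have hpt : Function.Injective fun k => pt (E k) := by
      intro k k' hk
      by_contra hne
      exact unit_Distinct.1 (unit_fimp.1 (hinj k k') hne) hk
    let _ : TopologicalSpace K := TopologicalSpace.induced (fun k => pt (E k)) inferInstance
    have hind : IsInducing fun k => pt (E k) := ⟨rfl⟩
    have hemb : IsEmbedding fun k => g (pt (E k)) := hg.comp ⟨hind, hpt⟩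
    have e := hemb.toHomeomorph
    refine ⟨Set.range fun k => g (pt (E k)), ?_, ?_⟩
    · exact ((unit_Expandable1 hind).1 h1).homeo e
    · intro h3
      refine unit_fnot.1 h2 ((unit_Expandable2 hind).2 ?_)
      exact h3.homeo ((Homeomorph.Set.prod _ _).trans (e.prodCongr e).symm)
  · rintro ⟨X, h1, h2⟩
    obtain ⟨j, hj, hinj⟩ := exists_inducing h1.dense_compl
    let E : X → ℕ → Set Unit := fun x i => {_u | j x i = true}
    have hE : (fun x => pt (E x)) = j := by
      funext x i
      cases h : j x i <;> simp [pt, E, h]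
    have hind : IsInducing fun x => pt (E x) := by
      rw [hE]
      exact hj
    refine ⟨X, unit_fex.2 ⟨E, ?_, (unit_Expandable1 hind).2 h1, unit_fnot.2 ?_⟩⟩
    · intro x y
      rw [unit_fimp]
      intro hne
      rw [unit_Distinct]
      intro h
      refine hne (hinj ?_)
      have hx : j x = pt (E x) := by rw [← hE]
      have hy : j y = pt (E y) := by rw [← hE]
      rw [hx, hy, h]
    · intro h
      exact h2 (((unit_Expandable2 hind).1 h).homeo (Homeomorph.Set.prod X X).symm)

end Pool.Agent.U83.DSq
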