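import Mathlib
import Pool.Agent.R610.Delta

/-!
# Squares of `Δ`-sets: the notion of forcing

Conditions are finite sets of atoms. The atoms `coh γ i b` decide the digits of Cohen reals `x γ`,
`γ : K`; the atoms `val α β v` decide a generic function from `K × K` to the natural numbers; for
every `ξ : W` the atoms `work ξ s n` put the basic clopen set of the finite sequence `s` into an
open set `U n` and the atoms `prom ξ γ m` promise that `x γ` is in no `U n` with `n ≥ m`. Here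
`nm ξ` is a name for a function from `K` to the natural numbers, and a promise requires that the
value of this function at `γ` is already decided and smaller than `m`.
-/

set_option autoImplicit false

open Set

namespace Pool.Agent.U83.DSq

/-- The atoms of the conditions. -/
inductive Atom (K W : Type) : Type
  | coh (γ : K) (i : ℕ) (b : Bool)
  | val (α β : K) (v : ℕ)
  | work (ξ : W) (s : List Bool) (n : ℕ)
  | prom (ξ : W) (γ : K) (m : ℕ)

/-- The indices which occur in atoms. -/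
abbrev Idx (K W : Type) : Type := K ⊕ (K × K) ⊕ W

variable {K W : Type}

/-- The names: `nm ξ γ i` is a pair of a finite set of atoms and a value. -/
abbrev Nm (K W : Type) : Type := W → K → ℕ → Finset (Atom K W) × ℕ

/-- All indices of the atom `a` belong to `S`. -/
def inS (S : Set (Idx K W)) : Atom K W → Prop
  | .coh γ _ _ => Sum.inl γ ∈ S
  | .val α β _ => Sum.inr (Sum.inl (α, β)) ∈ S
  | .work ξ _ _ => Sum.inr (Sum.inr ξ) ∈ S
  | .prom ξ γ _ => Sum.inr (Sum.inr ξ) ∈ S ∧ Sum.inl γ ∈ S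

theorem inS_mono {S S' : Set (Idx K W)} (h : S ⊆ S') {a : Atom K W} (ha : inS S a) : inS S' a := by
  cases a with
  | coh => exact h ha
  | val => exact h ha
  | work => exact h ha
  | prom => exact ⟨h ha.1, h ha.2⟩

/-- Valid conditions. -/
structure OK (nm : Nm K W) (p : Set (Atom K W)) : Prop where
  fin : p.Finite
  coh : ∀ γ i, Atom.coh γ i true ∈ p → Atom.coh γ i false ∈ p → False
  val : ∀ α β v v', Atom.val α β v ∈ p → Atom.val α β v' ∈ p → v = v'
  wp : ∀ ξ s n γ m, Atom.work ξ s n ∈ p → Atom.prom ξ γ m ∈ p → m ≤ n →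
    ∃ i b, s[i]? = some b ∧ Atom.coh γ i (!b) ∈ p
  cert : ∀ ξ γ m, Atom.prom ξ γ m ∈ p → ∃ i, (∀ a ∈ (nm ξ γ i).1, a ∈ p) ∧ (nm ξ γ i).2 < m

theorem OK.coh' {nm : Nm K W} {p : Set (Atom K W)} (h : OK nm p) {γ : K} {i : ℕ} {b : Bool}
    (h1 : Atom.coh γ i b ∈ p) (h2 : Atom.coh γ i (!b) ∈ p) : False := by
  cases b
  · exact h.coh γ i h2 h1
  · exact h.coh γ i h1 h2

/-- The restriction of `p` to `S`. -/
def restr (p : Set (Atom K W)) (S : Set (Idx K W)) : Set (Atom K W) := {a | a ∈ p ∧ inS S a}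

/-- `S` is closed: it contains all indices of the names given by its elements. -/
def Closed (nm : Nm K W) (S : Set (Idx K W)) : Prop :=
  ∀ ξ γ i, Sum.inr (Sum.inr ξ) ∈ S → Sum.inl γ ∈ S → ∀ a ∈ (nm ξ γ i).1, inS S a

/-- All configurations outside `S` have copies inside `S`. -/
def HasCopies (nm : Nm K W) (S : Set (Idx K W)) : Prop :=
  ∀ r, OK nm r → ∃ (r' : Set (Atom K W)) (τ : K → K), OK nm r' ∧ (∀ a ∈ r', inS S a) ∧
    restr r S ⊆ r' ∧
    (∀ ξ s n γ m, Atom.work ξ s n ∈ r' → Atom.prom ξ γ m ∈ r → Sum.inr (Sum.inr ξ) ∈ S →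
      Atom.work ξ s n ∈ r) ∧
    (∀ γ i b, Atom.coh γ i b ∈ r → Atom.coh (τ γ) i b ∈ r') ∧
    (∀ ξ γ m, Atom.prom ξ γ m ∈ r → Sum.inr (Sum.inr ξ) ∈ S → Atom.prom ξ (τ γ) m ∈ r')

theorem restr_subset (p : Set (Atom K W)) (S : Set (Idx K W)) : restr p S ⊆ p := fun _ h => h.1

theorem OK.empty (nm : Nm K W) : OK nm ∅ :=
  ⟨Set.finite_empty, fun _ _ h => h.elim, fun _ _ _ _ h => h.elim, fun _ _ _ _ _ h => h.elim,
    fun _ _ _ h => h.elim⟩

/-- **The main combinatorial lemma.** -/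
theorem swap {nm : Nm K W} {S A B : Set (Idx K W)} (hS : Closed nm S) (hc : HasCopies nm S)
    (hA : Closed nm A) (hB : Closed nm B) (hSA : S ⊆ A) (hSB : S ⊆ B) {α β : K}
    (hα : Sum.inl α ∈ A) (hβ : Sum.inl β ∈ B) (hαS : Sum.inl α ∉ S) (hβS : Sum.inl β ∉ S)
    (hab : α ≠ β) (hA' : Sum.inr (Sum.inl (α, β)) ∉ A) (hB' : Sum.inr (Sum.inl (α, β)) ∉ B)
    {r : Set (Atom K W)} (hr : OK nm r) (m : ℕ) :
    ∃ q, OK nm q ∧ restr r S ⊆ q ∧ Atom.val α β m ∈ q ∧
      ∀ q', OK nm q' → q ⊆ q' → ∃ r₁, OK nm r₁ ∧ r ⊆ r₁ ∧ restr q' S ⊆ r₁ ∧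
        (∀ i b, Atom.coh α i b ∈ q' → Atom.coh α i b ∈ r₁) ∧
        (∀ i b, Atom.coh β i b ∈ q' → Atom.coh β i b ∈ r₁) := by
  classical
  obtain ⟨r', τ, hr', hr'S, hrr', hwork, hcoh, hprom⟩ := hc r hr
  have hvS : Sum.inr (Sum.inl (α, β)) ∉ S := fun h => hA' (hSA h)
  -- the condition `q`
  let q : Set (Atom K W) := r' ∪ (restr r A ∪ restr r B) ∪ {Atom.val α β m}
  have memq : ∀ a, a ∈ q ↔ (a ∈ r' ∨ ((a ∈ r ∧ inS A a) ∨ (a ∈ r ∧ inS B a))) ∨
      a = Atom.val α β m := fun a => Iff.rfl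
  have hin : ∀ {a}, a ∈ r → inS S a → a ∈ r' := fun h1 h2 => hrr' ⟨h1, h2⟩
  have hqok : OK nm q := by
    refine ⟨?_, ?_, ?_, ?_, ?_⟩
    · exact (hr'.fin.union ((hr.fin.subset (restr_subset _ _)).union
        (hr.fin.subset (restr_subset _ _)))).union (Set.finite_singleton _)
    · intro γ i h1 h2
      have key : ∀ b, Atom.coh γ i b ∈ q → Atom.coh γ i b ∈ r' ∨ Atom.coh γ i b ∈ r := by
        intro b hb
        rcases (memq _).1 hb with (h | (h | h)) | h
        · exact Or.inl h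
        · exact Or.inr h.1
        · exact Or.inr h.1
        · cases h
      rcases key _ h1 with h1 | h1 <;> rcases key _ h2 with h2 | h2
      · exact hr'.coh γ i h1 h2
      · exact hr'.coh γ i h1 (hin h2 (hr'S (Atom.coh γ i true) h1))
      · exact hr'.coh γ i (hin h1 (hr'S (Atom.coh γ i false) h2)) h2
      · exact hr.coh γ i h1 h2
    · intro α' β' v v' h1 h2
      have key : ∀ v, Atom.val α' β' v ∈ q → (Atom.val α' β' v ∈ r' ∨
          (Atom.val α' β' v ∈ r ∧ (α', β') ≠ (α, β))) ∨ (α' = α ∧ β' = β ∧ v = m) := by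
        intro v hv
        rcases (memq _).1 hv with (h | (h | h)) | h
        · exact Or.inl (Or.inl h)
        · exact Or.inl (Or.inr ⟨h.1, fun he => hA' (by rw [← he]; exact h.2)⟩)
        · exact Or.inl (Or.inr ⟨h.1, fun he => hB' (by rw [← he]; exact h.2)⟩)
        · injection h with e1 e2 e3
          exact Or.inr ⟨e1, e2, e3⟩
      have hne : ∀ v, Atom.val α β v ∉ r' := fun v h => hvS (hr'S _ h)
      by_cases hc' : α' = α ∧ β' = β
      · have key2 : ∀ v, Atom.val α' β' v ∈ q → v = m := by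
          intro v hv
          rcases key v hv with (h | h) | h
          · rw [hc'.1, hc'.2] at h
            exact absurd h (hne v)
          · exact absurd (by rw [hc'.1, hc'.2]) h.2
          · exact h.2.2
        rw [key2 v h1, key2 v' h2]
      · have key2 : ∀ v, Atom.val α' β' v ∈ q → Atom.val α' β' v ∈ r' ∨ Atom.val α' β' v ∈ r := by
          intro v hv
          rcases key v hv with (h | h) | h
          · exact Or.inl h
          · exact Or.inr h.1
          · exact absurd ⟨h.1, h.2.1⟩ hc'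
        rcases key2 _ h1 with h1 | h1 <;> rcases key2 _ h2 with h2 | h2
        · exact hr'.val _ _ _ _ h1 h2
        · exact hr'.val _ _ _ _ h1 (hin h2 (hr'S (Atom.val α' β' v) h1))
        · exact hr'.val _ _ _ _ (hin h1 (hr'S (Atom.val α' β' v') h2)) h2
        · exact hr.val _ _ _ _ h1 h2
    · intro ξ s n γ k h1 h2 hkn
      have key1 : Atom.work ξ s n ∈ r' ∨ Atom.work ξ s n ∈ r := by
        rcases (memq _).1 h1 with (h | (h | h)) | h
        · exact Or.inl h
        · exact Or.inr h.1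
        · exact Or.inr h.1
        · cases h
      rcases (memq _).1 h2 with (h2 | (h2 | h2)) | h2
      · -- promise in `r'`
        have hw : Atom.work ξ s n ∈ r' := by
          rcases key1 with h | h
          · exact h
          · exact hin h (hr'S _ h2).1
        obtain ⟨i, b, hi, hb⟩ := hr'.wp ξ s n γ k hw h2 hkn
        exact ⟨i, b, hi, Or.inl (Or.inl hb)⟩
      · have hw : Atom.work ξ s n ∈ r := by
          rcases key1 with h | h
          · exact hwork ξ s n γ k h h2.1 (hr'S _ h)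
          · exact h
        obtain ⟨i, b, hi, hb⟩ := hr.wp ξ s n γ k hw h2.1 hkn
        exact ⟨i, b, hi, Or.inl (Or.inr (Or.inl ⟨hb, h2.2.2⟩))⟩
      · have hw : Atom.work ξ s n ∈ r := by
          rcases key1 with h | h
          · exact hwork ξ s n γ k h h2.1 (hr'S _ h)
          · exact h
        obtain ⟨i, b, hi, hb⟩ := hr.wp ξ s n γ k hw h2.1 hkn
        exact ⟨i, b, hi, Or.inl (Or.inr (Or.inr ⟨hb, h2.2.2⟩))⟩
      · cases h2
    · intro ξ γ k h
      rcases (memq _).1 h with (h | (h | h)) | h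
      · obtain ⟨i, h1, h2⟩ := hr'.cert ξ γ k h
        exact ⟨i, fun a ha => Or.inl (Or.inl (h1 a ha)), h2⟩
      · obtain ⟨i, h1, h2⟩ := hr.cert ξ γ k h.1
        exact ⟨i, fun a ha => Or.inl (Or.inr (Or.inl ⟨h1 a ha, hA ξ γ i h.2.1 h.2.2 a ha⟩)), h2⟩
      · obtain ⟨i, h1, h2⟩ := hr.cert ξ γ k h.1
        exact ⟨i, fun a ha => Or.inl (Or.inr (Or.inr ⟨h1 a ha, hB ξ γ i h.2.1 h.2.2 a ha⟩)), h2⟩
      · cases h
  refine ⟨q, hqok, fun a ha => Or.inl (Or.inl (hrr' ha)), Or.inr rfl, ?_⟩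
  intro q' hq' hqq'
  -- the new translation of the indices
  let σ : K → K := fun γ => if γ = α ∨ γ = β then γ else τ γ
  have hσα : σ α = α := if_pos (Or.inl rfl)
  have hσβ : σ β = β := if_pos (Or.inr rfl)
  have hσcoh : ∀ γ i b, Atom.coh γ i b ∈ r → Atom.coh (σ γ) i b ∈ q' := by
    intro γ i b h
    apply hqq'
    by_cases h1 : γ = α
    · subst h1
      rw [hσα]
      exact Or.inl (Or.inr (Or.inl ⟨h, hα⟩))
    · by_cases h2 : γ = β
      · subst h2
        rw [hσβ]
        exact Or.inl (Or.inr (Or.inr ⟨h, hβ⟩))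
      · have : σ γ = τ γ := if_neg (by tauto)
        rw [this]
        exact Or.inl (Or.inl (hcoh γ i b h))
  have hσprom : ∀ ξ γ k, Atom.prom ξ γ k ∈ r → Sum.inr (Sum.inr ξ) ∈ S →
      Atom.prom ξ (σ γ) k ∈ q' := by
    intro ξ γ k h hξ
    apply hqq'
    by_cases h1 : γ = α
    · subst h1
      rw [hσα]
      exact Or.inl (Or.inr (Or.inl ⟨h, hSA hξ, hα⟩))
    · by_cases h2 : γ = β
      · subst h2
        rw [hσβ]
        exact Or.inl (Or.inr (Or.inr ⟨h, hSB hξ, hβ⟩))
      · have : σ γ = τ γ := if_neg (by tauto)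
        rw [this]
        exact Or.inl (Or.inl (hprom ξ γ k h hξ))
  have hrq' : ∀ {a}, a ∈ r → inS S a → a ∈ q' := fun h1 h2 => hqq' (Or.inl (Or.inl (hin h1 h2)))
  -- the finite set of the relevant indices
  let G : Set K := {γ | γ = α ∨ γ = β ∨ ∃ ξ k, Atom.prom ξ γ k ∈ r}
  have hG : G.Finite := by
    have h1 : {γ : K | ∃ ξ k, Atom.prom ξ γ k ∈ r}.Finite := by
      let g : Atom K W → Set K := fun a => match a with
        | .prom _ γ _ => {γ}
        | _ => ∅
      refine (hr.fin.biUnion (t := g) ?_).subset ?_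
      · intro a _
        cases a <;> simp [g]
      · rintro γ ⟨ξ, k, h⟩
        exact Set.mem_biUnion h rfl
    exact ((Set.finite_singleton α).union ((Set.finite_singleton β).union h1)).subset
      (fun γ h => h)
  let C : Set (Atom K W) := {a | ∃ γ i b, a = Atom.coh γ i b ∧ γ ∈ G ∧ Sum.inl γ ∉ S ∧
    Atom.coh (σ γ) i b ∈ q'}
  have hC : C.Finite := by
    let g : K → Atom K W → Set (Atom K W) := fun γ a => match a with
      | .coh _ i b => {Atom.coh γ i b}
      | _ => ∅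
    refine (hG.biUnion (t := fun γ => ⋃ a ∈ q', g γ a) ?_).subset ?_
    · intro γ _
      refine hq'.fin.biUnion ?_
      intro a _
      cases a <;> simp [g]
    · rintro a ⟨γ, i, b, rfl, h1, h2, h3⟩
      exact Set.mem_biUnion h1 (Set.mem_biUnion h3 rfl)
  let r₁ : Set (Atom K W) := r ∪ restr q' S ∪ C
  have mem1 : ∀ a, a ∈ r₁ ↔ (a ∈ r ∨ (a ∈ q' ∧ inS S a)) ∨ ∃ γ i b, a = Atom.coh γ i b ∧
    γ ∈ G ∧ Sum.inl γ ∉ S ∧ Atom.coh (σ γ) i b ∈ q' := fun a => Iff.rfl
  refine ⟨r₁, ⟨?_, ?_, ?_, ?_, ?_⟩, fun a ha => Or.inl (Or.inl ha),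
    fun a ha => Or.inl (Or.inr ha), ?_, ?_⟩
  · exact (hr.fin.union (hq'.fin.subset (restr_subset _ _))).union hC
  · intro γ i
    -- all the digits come from one place
    by_cases hγ : Sum.inl γ ∈ S
    · have key : ∀ b, Atom.coh γ i b ∈ r₁ → Atom.coh γ i b ∈ q' := by
        intro b hb
        rcases (mem1 _).1 hb with (h | h) | ⟨γ', i', b', he, -, h2, -⟩
        · exact hrq' h hγ
        · exact h.1
        · injection he with e1 e2 e3
          subst e1
          exact absurd hγ h2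
      intro h1 h2
      exact hq'.coh γ i (key _ h1) (key _ h2)
    · have key : ∀ b, Atom.coh γ i b ∈ r₁ → Atom.coh (σ γ) i b ∈ q' := by
        intro b hb
        rcases (mem1 _).1 hb with (h | h) | ⟨γ', i', b', he, -, h2, h3⟩
        · exact hσcoh γ i b h
        · exact absurd h.2 hγ
        · injection he with e1 e2 e3
          subst e1 e2 e3
          exact h3
      intro h1 h2
      exact hq'.coh (σ γ) i (key _ h1) (key _ h2)
  · intro α' β' v v' h1 h2
    have key : ∀ v, Atom.val α' β' v ∈ r₁ → Atom.val α' β' v ∈ r ∨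
        (Atom.val α' β' v ∈ q' ∧ Sum.inr (Sum.inl (α', β')) ∈ S) := by
      intro v hv
      rcases (mem1 _).1 hv with (h | h) | ⟨γ', i', b', he, -, -, -⟩
      · exact Or.inl h
      · exact Or.inr h
      · cases he
    rcases key _ h1 with h1 | h1 <;> rcases key _ h2 with h2 | h2
    · exact hr.val _ _ _ _ h1 h2
    · exact hq'.val _ _ _ _ (hrq' h1 h2.2) h2.1
    · exact hq'.val _ _ _ _ h1.1 (hrq' h2 h1.2)
    · exact hq'.val _ _ _ _ h1.1 h2.1
  · intro ξ s n γ k h1 h2 hkn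
    have k1 : Atom.work ξ s n ∈ r ∨ (Atom.work ξ s n ∈ q' ∧ Sum.inr (Sum.inr ξ) ∈ S) := by
      rcases (mem1 _).1 h1 with (h | h) | ⟨γ', i', b', he, -, -, -⟩
      · exact Or.inl h
      · exact Or.inr h
      · cases he
    have k2 : Atom.prom ξ γ k ∈ r ∨ (Atom.prom ξ γ k ∈ q' ∧ Sum.inr (Sum.inr ξ) ∈ S ∧
        Sum.inl γ ∈ S) := by
      rcases (mem1 _).1 h2 with (h | h) | ⟨γ', i', b', he, -, -, -⟩
      · exact Or.inl h
      · exact Or.inr ⟨h.1, h.2⟩
      · cases he
    by_cases hξ : Sum.inr (Sum.inr ξ) ∈ S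
    · have hw : Atom.work ξ s n ∈ q' := by
        rcases k1 with h | h
        · exact hrq' h hξ
        · exact h.1
      by_cases hγ : Sum.inl γ ∈ S
      · have hp : Atom.prom ξ γ k ∈ q' := by
          rcases k2 with h | h
          · exact hrq' h ⟨hξ, hγ⟩
          · exact h.1
        obtain ⟨i, b, hi, hb⟩ := hq'.wp ξ s n γ k hw hp hkn
        exact ⟨i, b, hi, Or.inl (Or.inr ⟨hb, hγ⟩)⟩
      · have hp : Atom.prom ξ γ k ∈ r := by
          rcases k2 with h | h
          · exact h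
          · exact absurd h.2.2 hγ
        obtain ⟨i, b, hi, hb⟩ := hq'.wp ξ s n (σ γ) k hw (hσprom ξ γ k hp hξ) hkn
        exact ⟨i, b, hi, Or.inr ⟨γ, i, !b, rfl, Or.inr (Or.inr ⟨ξ, k, hp⟩), hγ, hb⟩⟩
    · have hw : Atom.work ξ s n ∈ r := by
        rcases k1 with h | h
        · exact h
        · exact absurd h.2 hξ
      have hp : Atom.prom ξ γ k ∈ r := by
        rcases k2 with h | h
        · exact h
        · exact absurd h.2.1 hξ
      obtain ⟨i, b, hi, hb⟩ := hr.wp ξ s n γ k hw hp hkn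
      exact ⟨i, b, hi, Or.inl (Or.inl hb)⟩
  · intro ξ γ k h
    rcases (mem1 _).1 h with (h | h) | ⟨γ', i', b', he, -, -, -⟩
    · obtain ⟨i, h1, h2⟩ := hr.cert ξ γ k h
      exact ⟨i, fun a ha => Or.inl (Or.inl (h1 a ha)), h2⟩
    · obtain ⟨i, h1, h2⟩ := hq'.cert ξ γ k h.1
      exact ⟨i, fun a ha => Or.inl (Or.inr ⟨h1 a ha, hS ξ γ i h.2.1 h.2.2 a ha⟩), h2⟩
    · cases he
  · intro i b h
    refine Or.inr ⟨α, i, b, rfl, Or.inl rfl, hαS, ?_⟩
    rw [hσα]
    exact h
  · intro i b h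
    refine Or.inr ⟨β, i, b, rfl, Or.inr (Or.inl rfl), hβS, ?_⟩
    rw [hσβ]
    exact h

end Pool.Agent.U83.DSq
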