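import Mathlib
import Pool.Agent.R610.Delta
import Pool.Agent.U83.DSq.Core

/-!
# Squares of `Δ`-sets: closed sets of indices, the countable chain condition, free pairs
-/

set_option autoImplicit false

open Set

namespace Pool.Agent.U83.DSq

/-! ### General closure -/

theorem countable_finset_subset {T : Type} {A : Set T} (hA : A.Countable) :
    {t : Finset T | (t : Set T) ⊆ A}.Countable := by
  have h := Set.countable_ofPred_finite_subset hA
  refine Set.MapsTo.countable_of_injOn (f := fun t : Finset T => (t : Set T)) ?_ ?_ h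
  · intro t ht
    exact ⟨t.finite_toSet, ht⟩
  · intro t _ t' _ h
    exact Finset.coe_injective h

/-- stages of the closure -/
def stage {T : Type} (N : Finset T → Set T) (A : Set T) : ℕ → Set T
  | 0 => A
  | n + 1 => stage N A n ∪ ⋃ t ∈ {t : Finset T | (t : Set T) ⊆ stage N A n}, N t

theorem stage_mono {T : Type} (N : Finset T → Set T) (A : Set T) : Monotone (stage N A) :=
  monotone_nat_of_le_succ fun _ => Set.subset_union_left

theorem stage_countable {T : Type} (N : Finset T → Set T) (hN : ∀ t, (N t).Countable) {A : Set T}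
    (hA : A.Countable) (n : ℕ) : (stage N A n).Countable := by
  induction n with
  | zero => exact hA
  | succ n ih => exact ih.union ((countable_finset_subset ih).biUnion fun t _ => hN t)

theorem exists_closed {T : Type} (N : Finset T → Set T) (hN : ∀ t, (N t).Countable) {A : Set T}
    (hA : A.Countable) :
    ∃ S : Set T, A ⊆ S ∧ S.Countable ∧ ∀ t : Finset T, (t : Set T) ⊆ S → N t ⊆ S := by
  refine ⟨⋃ n, stage N A n, fun x hx => Set.mem_iUnion.2 ⟨0, hx⟩,
    Set.countable_iUnion fun n => stage_countable N hN hA n, ?_⟩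
  intro t ht
  have : ∃ n, (t : Set T) ⊆ stage N A n := by
    have h1 : ∀ x ∈ t, ∃ n, x ∈ stage N A n := fun x hx => Set.mem_iUnion.1 (ht hx)
    choose! f hf using h1
    refine ⟨t.sup f, fun x hx => ?_⟩
    exact stage_mono N A (Finset.le_sup (f := f) hx) (hf x hx)
  obtain ⟨n, hn⟩ := this
  intro x hx
  exact Set.mem_iUnion.2 ⟨n + 1, Or.inr (Set.mem_biUnion (show t ∈ {t : Finset T |
    (t : Set T) ⊆ stage N A n} from hn) hx)⟩

/-! ### Indices -/

variable {K W : Type}

/-- the indices of an atom -/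
def ix : Atom K W → Set (Idx K W)
  | .coh γ _ _ => {Sum.inl γ}
  | .val α β _ => {Sum.inr (Sum.inl (α, β))}
  | .work ξ _ _ => {Sum.inr (Sum.inr ξ)}
  | .prom ξ γ _ => {Sum.inr (Sum.inr ξ), Sum.inl γ}

theorem inS_iff {S : Set (Idx K W)} {a : Atom K W} : inS S a ↔ ix a ⊆ S := by
  cases a <;> simp [inS, ix, Set.insert_subset_iff]

theorem ix_finite (a : Atom K W) : (ix a).Finite := by
  cases a <;> simp [ix]

theorem atoms_countable {S : Set (Idx K W)} (hS : S.Countable) :
    {a : Atom K W | inS S a}.Countable := by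
  classical
  -- the atoms as a countable union of images
  have h1 : {γ : K | Sum.inl γ ∈ S}.Countable :=
    hS.preimage_of_injOn (f := fun γ : K => (Sum.inl γ : Idx K W)) (fun a _ b _ h => Sum.inl.inj h)
  have h2 : {x : K × K | Sum.inr (Sum.inl x) ∈ S}.Countable :=
    hS.preimage_of_injOn (f := fun x : K × K => (Sum.inr (Sum.inl x) : Idx K W))
      (fun a _ b _ h => Sum.inl.inj (Sum.inr.inj h))
  have h3 : {ξ : W | Sum.inr (Sum.inr ξ) ∈ S}.Countable :=
    hS.preimage_of_injOn (f := fun ξ : W => (Sum.inr (Sum.inr ξ) : Idx K W))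
      (fun a _ b _ h => Sum.inr.inj (Sum.inr.inj h))
  have c1 : (⋃ γ ∈ {γ : K | Sum.inl γ ∈ S}, Set.range fun x : ℕ × Bool =>
      (Atom.coh γ x.1 x.2 : Atom K W)).Countable := h1.biUnion fun γ _ => Set.countable_range _
  have c2 : (⋃ x ∈ {x : K × K | Sum.inr (Sum.inl x) ∈ S}, Set.range fun v : ℕ =>
      (Atom.val x.1 x.2 v : Atom K W)).Countable := h2.biUnion fun γ _ => Set.countable_range _
  have c3 : (⋃ ξ ∈ {ξ : W | Sum.inr (Sum.inr ξ) ∈ S}, Set.range fun x : List Bool × ℕ =>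
      (Atom.work ξ x.1 x.2 : Atom K W)).Countable := h3.biUnion fun γ _ => Set.countable_range _
  have c4 : (⋃ ξ ∈ {ξ : W | Sum.inr (Sum.inr ξ) ∈ S}, ⋃ γ ∈ {γ : K | Sum.inl γ ∈ S},
      Set.range fun m : ℕ => (Atom.prom ξ γ m : Atom K W)).Countable :=
    h3.biUnion fun _ _ => h1.biUnion fun _ _ => Set.countable_range _
  refine (((c1.union c2).union c3).union c4).mono ?_
  intro a ha
  cases a with
  | coh γ i b => exact Or.inl (Or.inl (Or.inl (Set.mem_biUnion (show γ ∈ _ from ha) ⟨(i, b), rfl⟩)))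
  | val α β v => exact Or.inl (Or.inl (Or.inr (Set.mem_biUnion (show (α, β) ∈ _ from ha) ⟨v, rfl⟩)))
  | work ξ s n => exact Or.inl (Or.inr (Set.mem_biUnion (show ξ ∈ _ from ha) ⟨(s, n), rfl⟩))
  | prom ξ γ m => exact Or.inr (Set.mem_biUnion (show ξ ∈ _ from ha.1)
      (Set.mem_biUnion (show γ ∈ _ from ha.2) ⟨m, rfl⟩))

/-- the indices of a set of atoms -/
def ixs (p : Set (Atom K W)) : Set (Idx K W) := ⋃ a ∈ p, ix a

theorem ixs_finite {p : Set (Atom K W)} (hp : p.Finite) : (ixs p).Finite :=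
  hp.biUnion fun a _ => ix_finite a

theorem inS_ixs {p : Set (Atom K W)} {a : Atom K W} (ha : a ∈ p) : inS (ixs p) a :=
  inS_iff.2 (Set.subset_biUnion_of_mem (u := ix) ha)

/-! ### Queries -/

/-- A query: a finite set of atoms, a finite set of names, a finite set of types of points. -/
abbrev Query (K W : Type) : Type :=
  Finset (Atom K W) × Finset W × Finset (Finset (ℕ × Bool) × Finset (W × ℕ))

/-- The query only mentions indices in `S`. -/
def Over (S : Set (Idx K W)) (Q : Query K W) : Prop :=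
  (∀ a ∈ Q.1, inS S a) ∧ (∀ ξ ∈ Q.2.1, Sum.inr (Sum.inr ξ) ∈ S) ∧
    ∀ l ∈ Q.2.2, ∀ x ∈ l.2, Sum.inr (Sum.inr x.1) ∈ S

/-- `r'` and `g` solve the query. -/
def Solves (nm : Nm K W) (Q : Query K W) (r' : Set (Atom K W))
    (g : Finset (ℕ × Bool) × Finset (W × ℕ) → K) : Prop :=
  OK nm r' ∧ (∀ a ∈ Q.1, a ∈ r') ∧
    (∀ ξ ∈ Q.2.1, ∀ s n, Atom.work ξ s n ∈ r' → Atom.work ξ s n ∈ Q.1) ∧
    ∀ l ∈ Q.2.2, (∀ x ∈ l.1, Atom.coh (g l) x.1 x.2 ∈ r') ∧ ∀ x ∈ l.2, Atom.prom x.1 (g l) x.2 ∈ r'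

theorem queries_countable {S : Set (Idx K W)} (hS : S.Countable) :
    {Q : Query K W | Over S Q}.Countable := by
  have h3 : {ξ : W | Sum.inr (Sum.inr ξ) ∈ S}.Countable :=
    hS.preimage_of_injOn (f := fun ξ : W => (Sum.inr (Sum.inr ξ) : Idx K W))
      (fun a _ b _ h => Sum.inr.inj (Sum.inr.inj h))
  have c1 := countable_finset_subset (atoms_countable hS)
  have c2 := countable_finset_subset h3
  have c3 : {u : Finset (W × ℕ) | (u : Set (W × ℕ)) ⊆
      {ξ : W | Sum.inr (Sum.inr ξ) ∈ S} ×ˢ (Set.univ : Set ℕ)}.Countable :=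
    countable_finset_subset (h3.prod Set.countable_univ)
  have c4 : ((Set.univ : Set (Finset (ℕ × Bool))) ×ˢ {u : Finset (W × ℕ) | (u : Set (W × ℕ)) ⊆
      {ξ : W | Sum.inr (Sum.inr ξ) ∈ S} ×ˢ (Set.univ : Set ℕ)}).Countable :=
    Set.countable_univ.prod c3
  have c5 := countable_finset_subset c4
  refine ((c1.prod (c2.prod c5))).mono ?_
  rintro ⟨R, X, L⟩ ⟨h1, h2, h3⟩
  refine ⟨fun a ha => h1 a ha, fun ξ hξ => h2 ξ hξ, ?_⟩
  intro l hl
  exact ⟨Set.mem_univ _, fun x hx => ⟨h3 l hl x hx, Set.mem_univ _⟩⟩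

theorem exists_finset_over {S : Set (Idx K W)} {Q : Query K W} (hQ : Over S Q) :
    ∃ t : Finset (Idx K W), (t : Set (Idx K W)) ⊆ S ∧ Over (t : Set (Idx K W)) Q := by
  classical
  let A : Set (Idx K W) := ixs (Q.1 : Set (Atom K W)) ∪
    ((fun ξ : W => (Sum.inr (Sum.inr ξ) : Idx K W)) '' (Q.2.1 : Set W)) ∪
    ⋃ l ∈ (Q.2.2 : Set (Finset (ℕ × Bool) × Finset (W × ℕ))),
      (fun x : W × ℕ => (Sum.inr (Sum.inr x.1) : Idx K W)) '' (l.2 : Set (W × ℕ))
  have hA : A.Finite := ((ixs_finite Q.1.finite_toSet).union (Q.2.1.finite_toSet.image _)).union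
    (Q.2.2.finite_toSet.biUnion fun l _ => l.2.finite_toSet.image _)
  refine ⟨hA.toFinset, ?_, ?_, ?_, ?_⟩
  · rw [hA.coe_toFinset]
    rintro x ((hx | ⟨ξ, hξ, rfl⟩) | hx)
    · obtain ⟨a, ha, hxa⟩ := Set.mem_iUnion₂.1 hx
      exact inS_iff.1 (hQ.1 a ha) hxa
    · exact hQ.2.1 ξ hξ
    · obtain ⟨l, hl, y, hy, rfl⟩ := Set.mem_iUnion₂.1 hx
      exact hQ.2.2 l hl y hy
  · intro a ha
    rw [hA.coe_toFinset]
    exact inS_mono (fun x hx => Or.inl (Or.inl hx)) (inS_ixs (p := (Q.1 : Set (Atom K W))) ha)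
  · intro ξ hξ
    rw [hA.coe_toFinset]
    exact Or.inl (Or.inr ⟨ξ, hξ, rfl⟩)
  · intro l hl x hx
    rw [hA.coe_toFinset]
    exact Or.inr (Set.mem_biUnion
      (show l ∈ (Q.2.2 : Set (Finset (ℕ × Bool) × Finset (W × ℕ))) from hl) ⟨x, hx, rfl⟩)

/-- the indices of the names given by elements of `t` -/
def nmix (nm : Nm K W) (t : Finset (Idx K W)) : Set (Idx K W) :=
  ⋃ x ∈ (t : Set (Idx K W)), ⋃ y ∈ (t : Set (Idx K W)), match x, y with
    | Sum.inr (Sum.inr ξ), Sum.inl γ => ⋃ i : ℕ, ixs ((nm ξ γ i).1 : Set (Atom K W))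
    | _, _ => ∅

theorem nmix_countable (nm : Nm K W) (t : Finset (Idx K W)) : (nmix nm t).Countable := by
  refine t.countable_toSet.biUnion fun x _ => t.countable_toSet.biUnion fun y _ => ?_
  split
  · exact Set.countable_iUnion fun i => (ixs_finite (Finset.finite_toSet _)).countable
  · exact Set.countable_empty

theorem closed_of_nmix {nm : Nm K W} {S : Set (Idx K W)}
    (h : ∀ t : Finset (Idx K W), (t : Set (Idx K W)) ⊆ S → nmix nm t ⊆ S) : Closed nm S := by
  classical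
  intro ξ γ i hξ hγ a ha
  refine inS_mono ?_ (inS_ixs (p := ((nm ξ γ i).1 : Set (Atom K W))) ha)
  intro x hx
  let t : Finset (Idx K W) := {Sum.inr (Sum.inr ξ), Sum.inl γ}
  have ht1 : Sum.inr (Sum.inr ξ) ∈ t := Finset.mem_insert_self _ _
  have ht2 : Sum.inl γ ∈ t := Finset.mem_insert_of_mem (Finset.mem_singleton_self _)
  apply h t (by
    intro y hy
    rcases Finset.mem_insert.1 (Finset.mem_coe.1 hy) with rfl | hy
    · exact hξ
    · rw [Finset.mem_singleton] at hy
      rw [hy]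
      exact hγ)
  unfold nmix
  rw [Set.mem_iUnion₂]
  refine ⟨Sum.inr (Sum.inr ξ), ht1, ?_⟩
  rw [Set.mem_iUnion₂]
  refine ⟨Sum.inl γ, ht2, ?_⟩
  exact Set.mem_iUnion.2 ⟨i, hx⟩

/-- Every countable set of indices is contained in a countable closed one. -/
theorem exists_closure (nm : Nm K W) {A : Set (Idx K W)} (hA : A.Countable) :
    ∃ S, A ⊆ S ∧ S.Countable ∧ Closed nm S := by
  obtain ⟨S, h1, h2, h3⟩ := exists_closed (nmix nm) (nmix_countable nm) hA
  exact ⟨S, h1, h2, closed_of_nmix h3⟩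

open Classical in
/-- the indices of a solution of a query -/
noncomputable def solix (nm : Nm K W) (Q : Query K W) : Set (Idx K W) :=
  if h : ∃ r', ∃ g, Solves nm Q r' g then ixs h.choose else ∅

theorem solix_countable (nm : Nm K W) (Q : Query K W) : (solix nm Q).Countable := by
  unfold solix
  split
  · rename_i h
    obtain ⟨g, hg⟩ := h.choose_spec
    exact (ixs_finite hg.1.fin).countable
  · exact Set.countable_empty

/-- Every countable set of indices is contained in a countable closed one with copies. -/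
theorem exists_copies [Nonempty K] (nm : Nm K W) {A : Set (Idx K W)} (hA : A.Countable) :
    ∃ S, A ⊆ S ∧ S.Countable ∧ Closed nm S ∧ HasCopies nm S := by
  classical
  let N : Finset (Idx K W) → Set (Idx K W) := fun t => nmix nm t ∪
    ⋃ Q ∈ {Q : Query K W | Over (t : Set (Idx K W)) Q}, solix nm Q
  obtain ⟨S, h1, h2, h3⟩ := exists_closed N (fun t => (nmix_countable nm t).union
    ((queries_countable t.countable_toSet).biUnion fun Q _ => solix_countable nm Q)) hA
  refine ⟨S, h1, h2, closed_of_nmix fun t ht => (Set.subset_union_left).trans (h3 t ht), ?_⟩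
  have hsol : ∀ Q : Query K W, Over S Q → (∃ r', ∃ g, Solves nm Q r' g) →
      ∃ r', ∃ g, Solves nm Q r' g ∧ ∀ a ∈ r', inS S a := by
    intro Q hQ hex
    obtain ⟨t, ht, hQt⟩ := exists_finset_over hQ
    obtain ⟨g, hg⟩ := hex.choose_spec
    refine ⟨hex.choose, g, hg, ?_⟩
    intro a ha
    refine inS_mono ?_ (inS_ixs ha)
    intro x hx
    apply h3 t ht
    refine Or.inr (Set.mem_biUnion (show Q ∈ {Q : Query K W | Over (t : Set (Idx K W)) Q} from hQt)
      ?_)
    have : solix nm Q = ixs hex.choose := dif_pos hex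
    rw [this]
    exact hx
  intro r hr
  -- the query of `r`
  have hRfin : (restr r S).Finite := hr.fin.subset (restr_subset _ _)
  have hXfin : {ξ : W | Sum.inr (Sum.inr ξ) ∈ S ∧ ∃ γ m, Atom.prom ξ γ m ∈ r}.Finite := by
    let g : Atom K W → Set W := fun a => match a with
      | .prom ξ _ _ => {ξ}
      | _ => ∅
    refine (hr.fin.biUnion (t := g) ?_).subset ?_
    · intro a _
      cases a <;> simp [g]
    · rintro ξ ⟨-, γ, m, h⟩
      exact Set.mem_biUnion h rfl
  have hl1 : ∀ γ : K, {x : ℕ × Bool | Atom.coh γ x.1 x.2 ∈ r}.Finite := by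
    intro γ
    let g : Atom K W → Set (ℕ × Bool) := fun a => match a with
      | .coh _ i b => {(i, b)}
      | _ => ∅
    refine (hr.fin.biUnion (t := g) ?_).subset ?_
    · intro a _
      cases a <;> simp [g]
    · rintro ⟨i, b⟩ h
      exact Set.mem_biUnion h rfl
  have hl2 : ∀ γ : K, {x : W × ℕ | Atom.prom x.1 γ x.2 ∈ r ∧ Sum.inr (Sum.inr x.1) ∈ S}.Finite := by
    intro γ
    let g : Atom K W → Set (W × ℕ) := fun a => match a with
      | .prom ξ _ m => {(ξ, m)}
      | _ => ∅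
    refine (hr.fin.biUnion (t := g) ?_).subset ?_
    · intro a _
      cases a <;> simp [g]
    · rintro ⟨ξ, m⟩ h
      exact Set.mem_biUnion h.1 rfl
  let l : K → Finset (ℕ × Bool) × Finset (W × ℕ) := fun γ => ((hl1 γ).toFinset, (hl2 γ).toFinset)
  have hGfin : {γ : K | ∃ a ∈ r, Sum.inl γ ∈ ix a}.Finite := by
    have h4 : {γ : K | Sum.inl γ ∈ ixs r}.Finite :=
      (ixs_finite hr.fin).preimage (f := fun γ : K => (Sum.inl γ : Idx K W))
        (fun a _ b _ h => Sum.inl.inj h)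
    refine h4.subset ?_
    rintro γ ⟨a, ha, hγ⟩
    exact Set.mem_biUnion ha hγ
  let Q : Query K W := (hRfin.toFinset, hXfin.toFinset, hGfin.toFinset.image l)
  have hQ : Over S Q := by
    refine ⟨?_, ?_, ?_⟩
    · intro a ha
      exact ((Set.Finite.mem_toFinset _).1 ha).2
    · intro ξ hξ
      exact ((Set.Finite.mem_toFinset _).1 hξ).1
    · intro l' hl' x hx
      obtain ⟨γ, -, rfl⟩ := Finset.mem_image.1 hl'
      exact ((Set.Finite.mem_toFinset _).1 hx).2
  have hself : ∃ r', ∃ g, Solves nm Q r' g := by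
    let g : Finset (ℕ × Bool) × Finset (W × ℕ) → K := fun l' =>
      if h : ∃ γ, l γ = l' then h.choose else Classical.arbitrary K
    have hg : ∀ γ, l (g (l γ)) = l γ := by
      intro γ
      have h : ∃ γ', l γ' = l γ := ⟨γ, rfl⟩
      have : g (l γ) = h.choose := dif_pos h
      rw [this]
      exact h.choose_spec
    refine ⟨r, g, hr, ?_, ?_, ?_⟩
    · intro a ha
      exact ((Set.Finite.mem_toFinset _).1 ha).1
    · intro ξ hξ s n h
      exact (Set.Finite.mem_toFinset _).2 ⟨h, ((Set.Finite.mem_toFinset _).1 hξ).1⟩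
    · intro l' hl'
      obtain ⟨γ, -, rfl⟩ := Finset.mem_image.1 hl'
      refine ⟨fun x hx => ?_, fun x hx => ?_⟩
      · have : x ∈ (l (g (l γ))).1 := by rw [hg]; exact hx
        exact (Set.Finite.mem_toFinset (hl1 _)).1 this
      · have : x ∈ (l (g (l γ))).2 := by rw [hg]; exact hx
        exact ((Set.Finite.mem_toFinset (hl2 _)).1 this).1
  obtain ⟨r', g, ⟨hr', hR, hX, hL⟩, hr'S⟩ := hsol Q hQ hself
  refine ⟨r', fun γ => g (l γ), hr', hr'S, ?_, ?_, ?_, ?_⟩
  · intro a ha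
    exact hR a ((Set.Finite.mem_toFinset _).2 ha)
  · intro ξ s n γ m h1 h2 h3
    have := hX ξ ((Set.Finite.mem_toFinset _).2 ⟨h3, γ, m, h2⟩) s n h1
    exact ((Set.Finite.mem_toFinset _).1 this).1
  · intro γ i b h
    have hγ : l γ ∈ Q.2.2 := Finset.mem_image.2 ⟨γ, (Set.Finite.mem_toFinset _).2
      ⟨_, h, rfl⟩, rfl⟩
    exact (hL _ hγ).1 (i, b) ((Set.Finite.mem_toFinset _).2 h)
  · intro ξ γ m h hξ
    have hγ : l γ ∈ Q.2.2 := Finset.mem_image.2 ⟨γ, (Set.Finite.mem_toFinset _).2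
      ⟨_, h, Or.inr rfl⟩, rfl⟩
    exact (hL _ hγ).2 (ξ, m) ((Set.Finite.mem_toFinset _).2 ⟨h, hξ⟩)

end Pool.Agent.U83.DSq
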