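import Mathlib
import Pool.Agent.R610.Delta
import Pool.Agent.U83.DSq.Close

/-!
# Squares of `Δ`-sets: the countable chain condition, free pairs, universal names
-/

set_option autoImplicit false

open Set

namespace Pool.Agent.U83.DSq

variable {K W : Type}

/-- Two conditions with the same trace over the common indices have a common extension. -/
theorem union_ok {nm : Nm K W} {p q : Set (Atom K W)} (hp : OK nm p) (hq : OK nm q)
    {R : Set (Idx K W)} (hR : ∀ x ∈ ixs p, x ∈ ixs q → x ∈ R) (htr : restr p R = restr q R) :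
    OK nm (p ∪ q) := by
  have h1 : ∀ a ∈ p, inS R a → a ∈ q := by
    intro a ha h
    have : a ∈ restr q R := by
      rw [← htr]
      exact ⟨ha, h⟩
    exact this.1
  have h2 : ∀ a ∈ q, inS R a → a ∈ p := by
    intro a ha h
    have : a ∈ restr p R := by
      rw [htr]
      exact ⟨ha, h⟩
    exact this.1
  have i1 : ∀ γ i b, Atom.coh γ i b ∈ p → Sum.inl γ ∈ ixs p := fun γ i b h => inS_ixs h
  have i2 : ∀ γ i b, Atom.coh γ i b ∈ q → Sum.inl γ ∈ ixs q := fun γ i b h => inS_ixs h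
  refine ⟨hp.fin.union hq.fin, ?_, ?_, ?_, ?_⟩
  · intro γ i ha hb
    rcases ha with ha | ha <;> rcases hb with hb | hb
    · exact hp.coh γ i ha hb
    · exact hq.coh γ i (h1 _ ha (hR _ (i1 _ _ _ ha) (i2 _ _ _ hb))) hb
    · exact hq.coh γ i ha (h1 _ hb (hR _ (i1 _ _ _ hb) (i2 _ _ _ ha)))
    · exact hq.coh γ i ha hb
  · have j1 : ∀ α β v, Atom.val α β v ∈ p → Sum.inr (Sum.inl (α, β)) ∈ ixs p :=
      fun _ _ _ h => inS_ixs h
    have j2 : ∀ α β v, Atom.val α β v ∈ q → Sum.inr (Sum.inl (α, β)) ∈ ixs q :=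
      fun _ _ _ h => inS_ixs h
    intro α β v v' ha hb
    rcases ha with ha | ha <;> rcases hb with hb | hb
    · exact hp.val _ _ _ _ ha hb
    · exact hq.val _ _ _ _ (h1 _ ha (hR _ (j1 _ _ _ ha) (j2 _ _ _ hb))) hb
    · exact hq.val _ _ _ _ ha (h1 _ hb (hR _ (j1 _ _ _ hb) (j2 _ _ _ ha)))
    · exact hq.val _ _ _ _ ha hb
  · have j1 : ∀ ξ s n, Atom.work ξ s n ∈ p → Sum.inr (Sum.inr ξ) ∈ ixs p :=
      fun _ _ _ h => inS_ixs h
    have j2 : ∀ ξ s n, Atom.work ξ s n ∈ q → Sum.inr (Sum.inr ξ) ∈ ixs q :=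
      fun _ _ _ h => inS_ixs h
    have k1 : ∀ ξ γ m, Atom.prom ξ γ m ∈ p → Sum.inr (Sum.inr ξ) ∈ ixs p :=
      fun _ _ _ h => (inS_ixs h).1
    have k2 : ∀ ξ γ m, Atom.prom ξ γ m ∈ q → Sum.inr (Sum.inr ξ) ∈ ixs q :=
      fun _ _ _ h => (inS_ixs h).1
    intro ξ s n γ m ha hb hmn
    rcases ha with ha | ha <;> rcases hb with hb | hb
    · obtain ⟨i, b, e1, e2⟩ := hp.wp ξ s n γ m ha hb hmn
      exact ⟨i, b, e1, Or.inl e2⟩
    · obtain ⟨i, b, e1, e2⟩ := hq.wp ξ s n γ m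
        (h1 _ ha (hR _ (j1 _ _ _ ha) (k2 _ _ _ hb))) hb hmn
      exact ⟨i, b, e1, Or.inr e2⟩
    · obtain ⟨i, b, e1, e2⟩ := hp.wp ξ s n γ m
        (h2 _ ha (hR _ (k1 _ _ _ hb) (j2 _ _ _ ha))) hb hmn
      exact ⟨i, b, e1, Or.inl e2⟩
    · obtain ⟨i, b, e1, e2⟩ := hq.wp ξ s n γ m ha hb hmn
      exact ⟨i, b, e1, Or.inr e2⟩
  · intro ξ γ m h
    rcases h with h | h
    · obtain ⟨i, e1, e2⟩ := hp.cert ξ γ m h
      exact ⟨i, fun a ha => Or.inl (e1 a ha), e2⟩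
    · obtain ⟨i, e1, e2⟩ := hq.cert ξ γ m h
      exact ⟨i, fun a ha => Or.inr (e1 a ha), e2⟩

/-- **The countable chain condition.** -/
theorem ccc {nm : Nm K W} (J : Set (Set (Atom K W))) (hJ : ¬ J.Countable)
    (hok : ∀ p ∈ J, OK nm p) : ∃ p ∈ J, ∃ q ∈ J, p ≠ q ∧ OK nm (p ∪ q) := by
  classical
  let F : Set (Atom K W) → Finset (Idx K W) := fun p =>
    if h : (ixs p).Finite then h.toFinset else ∅
  have hF : ∀ p ∈ J, ∀ x, x ∈ F p ↔ x ∈ ixs p := by
    intro p hp x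
    have h := ixs_finite (hok p hp).fin
    have : F p = h.toFinset := dif_pos h
    rw [this, Set.Finite.mem_toFinset]
  obtain ⟨J', R, hJJ, hJ', -, hR⟩ := Pool.Agent.R610.Delta.delta_system F J hJ
  let C : Set (Finset (Atom K W)) := {t | (t : Set (Atom K W)) ⊆ {a | inS (R : Set (Idx K W)) a}}
  have hC : C.Countable := countable_finset_subset (atoms_countable R.countable_toSet)
  have : Countable C := hC.to_subtype
  have hr : ∀ p ∈ J', ∃ c : C, restr p (R : Set (Idx K W)) = (c.1 : Set (Atom K W)) := by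
    intro p hp
    have h := (hok p (hJJ hp)).fin.subset (restr_subset p (R : Set (Idx K W)))
    refine ⟨⟨h.toFinset, ?_⟩, ?_⟩
    · show (h.toFinset : Set (Atom K W)) ⊆ _
      rw [h.coe_toFinset]
      exact fun a ha => ha.2
    · show _ = (h.toFinset : Set (Atom K W))
      rw [h.coe_toFinset]
  obtain ⟨c, hc⟩ := Pool.Agent.R610.Delta.uncountable_fiber' (fun p (c : C) =>
    restr p (R : Set (Idx K W)) = (c.1 : Set (Atom K W))) J' hJ' hr
  have hnt : ¬ {p ∈ J' | restr p (R : Set (Idx K W)) = (c.1 : Set (Atom K W))}.Subsingleton :=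
    fun h => hc h.countable
  rw [Set.not_subsingleton_iff] at hnt
  obtain ⟨p, ⟨hp, hpc⟩, q, ⟨hq, hqc⟩, hpq⟩ := hnt
  refine ⟨p, hJJ hp, q, hJJ hq, hpq, union_ok (hok p (hJJ hp)) (hok q (hJJ hq))
    (R := (R : Set (Idx K W))) ?_ (hpc.trans hqc.symm)⟩
  intro x hx hx'
  exact hR p hp q hq hpq x ((hF p (hJJ hp) x).2 hx) ((hF q (hJJ hq) x).2 hx')

/-- Every family of conditions has a countable subfamily such that each member is compatible with
some member of the subfamily. -/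
theorem exists_predense {nm : Nm K W} (D : Set (Set (Atom K W))) (hD : ∀ p ∈ D, OK nm p) :
    ∃ A ⊆ D, A.Countable ∧ ∀ p ∈ D, ∃ q ∈ A, ∃ r, OK nm r ∧ p ⊆ r ∧ q ⊆ r := by
  classical
  let 𝒮 : Set (Set (Set (Atom K W))) := {A | A ⊆ D ∧
    ∀ p ∈ A, ∀ q ∈ A, p ≠ q → ¬ ∃ r, OK nm r ∧ p ⊆ r ∧ q ⊆ r}
  obtain ⟨A, hA⟩ : ∃ A, Maximal (· ∈ 𝒮) A := by
    refine zorn_subset 𝒮 ?_
    intro c hc hch
    refine ⟨⋃₀ c, ⟨?_, ?_⟩, fun s hs => Set.subset_sUnion_of_mem hs⟩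
    · exact Set.sUnion_subset fun s hs => (hc hs).1
    · rintro p ⟨s, hs, hps⟩ q ⟨t, ht, hqt⟩ hpq
      rcases hch.total hs ht with h | h
      · exact (hc ht).2 p (h hps) q hqt hpq
      · exact (hc hs).2 p hps q (h hqt) hpq
  refine ⟨A, hA.prop.1, ?_, ?_⟩
  · by_contra hcount
    obtain ⟨p, hp, q, hq, hpq, hok⟩ := ccc (nm := nm) A hcount fun p hp => hD p (hA.prop.1 hp)
    exact hA.prop.2 p hp q hq hpq ⟨p ∪ q, hok, Set.subset_union_left, Set.subset_union_right⟩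
  · intro p hp
    by_contra hno
    push Not at hno
    have hpA : p ∉ A := fun h => hno p h p (hD p hp) subset_rfl subset_rfl
    have hins : insert p A ∈ 𝒮 := by
      refine ⟨Set.insert_subset hp hA.prop.1, ?_⟩
      intro x hx y hy hxy
      rcases hx with rfl | hx <;> rcases hy with rfl | hy
      · exact absurd rfl hxy
      · rintro ⟨r, hr, h1, h2⟩
        exact hno y hy r hr h1 h2
      · rintro ⟨r, hr, h1, h2⟩
        exact hno x hx r hr h2 h1
      · exact hA.prop.2 x hx y hy hxy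
    exact hpA (hA.le_of_ge hins (Set.subset_insert _ _) (Set.mem_insert _ _))

/-- **Free pairs.** -/
theorem free_pair (hK : Cardinal.aleph 2 ≤ Cardinal.mk K) {S : Set (Idx K W)} (hS : S.Countable)
    (A : K → Set (Idx K W)) (hA : ∀ γ, (A γ).Countable) :
    ∃ α β : K, α ≠ β ∧ Sum.inl α ∉ S ∧ Sum.inl β ∉ S ∧ Sum.inr (Sum.inl (α, β)) ∉ A α ∧
      Sum.inr (Sum.inl (α, β)) ∉ A β := by
  classical
  have h12 : Cardinal.aleph 1 < Cardinal.aleph 2 := Cardinal.aleph_lt_aleph.2 (by norm_num)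
  obtain ⟨W0, hW0⟩ := Cardinal.le_mk_iff_exists_set.1 (h12.le.trans hK)
  have hSc : {γ : K | Sum.inl γ ∈ S}.Countable :=
    hS.preimage_of_injOn (f := fun γ : K => (Sum.inl γ : Idx K W)) (fun a _ b _ h => Sum.inl.inj h)
  have hAc : ∀ α : K, {β : K | Sum.inr (Sum.inl (α, β)) ∈ A α}.Countable := fun α =>
    (hA α).preimage_of_injOn (f := fun β : K => (Sum.inr (Sum.inl (α, β)) : Idx K W))
      (fun a _ b _ h => (Prod.mk.inj (Sum.inl.inj (Sum.inr.inj h))).2)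
  have hBc : ∀ β : K, {α : K | Sum.inr (Sum.inl (α, β)) ∈ A β}.Countable := fun β =>
    (hA β).preimage_of_injOn (f := fun α : K => (Sum.inr (Sum.inl (α, β)) : Idx K W))
      (fun a _ b _ h => (Prod.mk.inj (Sum.inl.inj (Sum.inr.inj h))).1)
  -- the choice of `β`
  let T : Set K := ⋃ α : W0, {β : K | Sum.inr (Sum.inl (α.1, β)) ∈ A α.1}
  have hT : Cardinal.mk T ≤ Cardinal.aleph 1 := by
    refine (Cardinal.mk_iUnion_le_sum_mk).trans ?_
    refine (Cardinal.sum_le_sum _ (fun _ => Cardinal.aleph0) fun (α : W0) =>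
      Cardinal.le_aleph0_iff_set_countable.2 (hAc α.1)).trans ?_
    rw [Cardinal.sum_const, Cardinal.lift_id, Cardinal.lift_id, hW0]
    exact (Cardinal.mul_le_max_of_aleph0_le_left (Cardinal.aleph0_le_aleph 1)).trans
      (max_le le_rfl (Cardinal.aleph0_le_aleph 1))
  have hU : Cardinal.mk (T ∪ (W0 ∪ {γ : K | Sum.inl γ ∈ S}) : Set K) ≤ Cardinal.aleph 1 := by
    refine (Cardinal.mk_union_le _ _).trans ?_
    refine (add_le_add hT (Cardinal.mk_union_le _ _)).trans ?_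
    have h3 : Cardinal.mk {γ : K | Sum.inl γ ∈ S} ≤ Cardinal.aleph 1 :=
      (Cardinal.le_aleph0_iff_set_countable.2 hSc).trans (Cardinal.aleph0_le_aleph 1)
    refine (add_le_add le_rfl (add_le_add hW0.le h3)).trans ?_
    rw [Cardinal.add_eq_self (Cardinal.aleph0_le_aleph 1),
      Cardinal.add_eq_self (Cardinal.aleph0_le_aleph 1)]
  obtain ⟨β, hβ⟩ : ∃ β, β ∉ (T ∪ (W0 ∪ {γ : K | Sum.inl γ ∈ S}) : Set K) := by
    by_contra h
    push Not at h
    have : (T ∪ (W0 ∪ {γ : K | Sum.inl γ ∈ S}) : Set K) = Set.univ := Set.eq_univ_of_forall h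
    rw [this, Cardinal.mk_univ] at hU
    exact absurd (hK.trans hU) (not_le.2 h12)
  -- the choice of `α`
  obtain ⟨α, hαW, hα⟩ : ∃ α ∈ W0, α ∉ ({γ : K | Sum.inl γ ∈ S} ∪
      {α : K | Sum.inr (Sum.inl (α, β)) ∈ A β} : Set K) := by
    by_contra h
    push Not at h
    have hc : W0.Countable := (hSc.union (hBc β)).mono h
    rw [← Cardinal.le_aleph0_iff_set_countable, hW0] at hc
    exact absurd hc (not_le.2 Cardinal.aleph0_lt_aleph_one)
  refine ⟨α, β, ?_, fun h => hα (Or.inl h), fun h => hβ (Or.inr (Or.inr h)), ?_,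
    fun h => hα (Or.inr h)⟩
  · rintro rfl
    exact hβ (Or.inr (Or.inl hαW))
  · intro h
    exact hβ (Or.inl (Set.mem_iUnion.2 ⟨⟨α, hαW⟩, h⟩))

end Pool.Agent.U83.DSq
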