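import Mathlib
import Pool.Agent.U83.DSq.Core

/-!
# Squares of `Δ`-sets: a universal list of names
-/

set_option autoImplicit false

open Set Cardinal

namespace Pool.Agent.U83.DSq

variable {K W : Type}

/-- a code of an atom -/
def code : Atom K W → (ℕ × Option K × Option K) × (Option W × List Bool × ℕ × Bool)
  | .coh γ i b => ((0, some γ, none), (none, [], i, b))
  | .val α β v => ((1, some α, some β), (none, [], v, false))
  | .work ξ s n => ((2, none, none), (some ξ, s, n, false))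
  | .prom ξ γ m => ((3, some γ, none), (some ξ, [], m, false))

theorem code_injective : Function.Injective (code : Atom K W → _) := by
  intro a b h
  cases a <;> cases b <;> simp_all [code]

theorem mk_option_le {κ : Cardinal.{0}} (hκ : ℵ₀ ≤ κ) {X : Type} (h : #X ≤ κ) :
    #(Option X) ≤ κ := by
  rw [Cardinal.mk_option]
  exact Cardinal.add_le_of_le hκ h (Cardinal.one_le_aleph0.trans hκ)

theorem mk_prod_le' {κ : Cardinal.{0}} (hκ : ℵ₀ ≤ κ) {X Y : Type} (h : #X ≤ κ) (h' : #Y ≤ κ) :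
    #(X × Y) ≤ κ := by
  rw [Cardinal.mk_prod, Cardinal.lift_id, Cardinal.lift_id]
  exact Cardinal.mul_le_of_le hκ h h'

theorem mk_countable_le {κ : Cardinal.{0}} (hκ : ℵ₀ ≤ κ) (X : Type) [Countable X] : #X ≤ κ :=
  (Cardinal.mk_le_aleph0_iff.2 inferInstance).trans hκ

theorem mk_atom_le {κ : Cardinal.{0}} (hκ : ℵ₀ ≤ κ) (hK : #K ≤ κ) (hW : #W ≤ κ) :
    #(Atom K W) ≤ κ := by
  refine (Cardinal.mk_le_of_injective code_injective).trans ?_
  exact mk_prod_le' hκ (mk_prod_le' hκ (mk_countable_le hκ _) (mk_prod_le' hκ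
    (mk_option_le hκ hK) (mk_option_le hκ hK))) (mk_prod_le' hκ (mk_option_le hκ hW)
    (mk_countable_le hκ _))

theorem mk_finset_le {κ : Cardinal.{0}} (hκ : ℵ₀ ≤ κ) {X : Type} (h : #X ≤ κ) :
    #(Finset X) ≤ κ := by
  rcases finite_or_infinite X with hf | hf
  · exact mk_countable_le hκ _
  · rw [Cardinal.mk_finset_of_infinite]
    exact h

/-- **There is a list of all names indexed by the subsets of `K`.** -/
theorem exists_nm (K : Type) [Infinite K] :
    ∃ nm : Nm K (Set K), ∀ f : K → ℕ → Finset (Atom K (Set K)) × ℕ, ∃ ξ, nm ξ = f := by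
  have hK : ℵ₀ ≤ #K := Cardinal.infinite_iff.1 inferInstance
  have hW : #(Set K) = 2 ^ #K := Cardinal.mk_set
  have hκ : ℵ₀ ≤ (2 : Cardinal.{0}) ^ #K := hK.trans (Cardinal.cantor _).le
  have hX : #(Finset (Atom K (Set K)) × ℕ) ≤ 2 ^ #K :=
    mk_prod_le' hκ (mk_finset_le hκ (mk_atom_le hκ (Cardinal.cantor _).le hW.le))
      (mk_countable_le hκ _)
  have h1 : #(K → ℕ → Finset (Atom K (Set K)) × ℕ) ≤ #(Set K) := by
    rw [hW, ← Cardinal.power_def, ← Cardinal.power_def]
    calc (#(Finset (Atom K (Set K)) × ℕ) ^ #ℕ) ^ #K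
        ≤ ((2 ^ #K) ^ #ℕ) ^ #K :=
          Cardinal.power_le_power_right (Cardinal.power_le_power_right hX)
      _ = 2 ^ #K := by
          rw [← Cardinal.power_mul, ← Cardinal.power_mul, Cardinal.mk_nat,
            Cardinal.aleph0_mul_eq hK, Cardinal.mul_eq_self hK]
  obtain ⟨g⟩ := h1
  exact ⟨Function.invFun g, fun f => ⟨g f, Function.leftInverse_invFun g.injective f⟩⟩

end Pool.Agent.U83.DSq
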