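import Mathlib
import Pool.Agent.U83.DSq.Ccc
import Pool.Agent.U83.DSq.Names
import Pool.Agent.U83.DSq.Sentence

/-!
# Squares of `Δ`-sets: extensions of conditions
-/

set_option autoImplicit false

open Set Pool.Agent.Helper669.Forcing

namespace Pool.Agent.U83.DSq

variable {K W : Type}

/-! ### Extensions -/

theorem OK.union_coh {nm : Nm K W} {p C : Set (Atom K W)} (h : OK nm p) (hC : C.Finite)
    (hcoh : ∀ a ∈ C, ∃ γ i b, a = Atom.coh γ i b)
    (hcons : ∀ γ i, Atom.coh γ i true ∈ p ∪ C → Atom.coh γ i false ∈ p ∪ C → False) :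
    OK nm (p ∪ C) := by
  have key : ∀ {a : Atom K W}, a ∈ p ∪ C → (∀ γ i b, a ≠ Atom.coh γ i b) → a ∈ p := by
    intro a ha h
    rcases ha with ha | ha
    · exact ha
    · obtain ⟨γ, i, b, e⟩ := hcoh a ha
      exact absurd e (h γ i b)
  refine ⟨h.fin.union hC, hcons, ?_, ?_, ?_⟩
  · intro α β v v' h1 h2
    exact h.val α β v v' (key h1 fun _ _ _ e => by cases e) (key h2 fun _ _ _ e => by cases e)
  · intro ξ s n γ m h1 h2 hmn
    obtain ⟨i, b, e1, e2⟩ := h.wp ξ s n γ m (key h1 fun _ _ _ e => by cases e)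
      (key h2 fun _ _ _ e => by cases e) hmn
    exact ⟨i, b, e1, Or.inl e2⟩
  · intro ξ γ m h1
    obtain ⟨i, e1, e2⟩ := h.cert ξ γ m (key h1 fun _ _ _ e => by cases e)
    exact ⟨i, fun a ha => Or.inl (e1 a ha), e2⟩

theorem OK.insert_coh {nm : Nm K W} {p : Set (Atom K W)} (h : OK nm p) {γ : K} {i : ℕ} {b : Bool}
    (hb : Atom.coh γ i (!b) ∉ p) : OK nm (p ∪ {Atom.coh γ i b}) := by
  refine h.union_coh (Set.finite_singleton _) (fun a ha => ⟨γ, i, b, ha⟩) ?_
  intro γ' i' h1 h2
  rcases h1 with h1 | h1 <;> rcases h2 with h2 | h2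
  · exact h.coh γ' i' h1 h2
  · injection (show _ = Atom.coh γ i b from h2) with e1 e2 e3
    subst e1 e2 e3
    exact hb h1
  · injection (show _ = Atom.coh γ i b from h1) with e1 e2 e3
    subst e1 e2 e3
    exact hb h2
  · injection (show _ = Atom.coh γ i b from h1) with e1 e2 e3
    injection (show _ = Atom.coh γ i b from h2) with e1' e2' e3'
    rw [← e3] at e3'
    cases e3'

/-- There is a level above all digits of a condition. -/
theorem OK.exists_level {nm : Nm K W} {p : Set (Atom K W)} (h : OK nm p) :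
    ∃ L : ℕ, ∀ γ i b, Atom.coh γ i b ∈ p → i < L := by
  let g : Atom K W → ℕ := fun a => match a with
    | .coh _ i _ => i
    | _ => 0
  obtain ⟨L, hL⟩ := (h.fin.image g).bddAbove
  refine ⟨L + 1, fun γ i b hp => ?_⟩
  exact Nat.lt_succ_of_le (hL ⟨_, hp, rfl⟩)

/-- Extending a condition by a promise. -/
theorem OK.exists_prom {nm : Nm K W} {p : Set (Atom K W)} (h : OK nm p) {ξ : W} {γ : K} {j : ℕ}
    (hj : ∀ a ∈ (nm ξ γ j).1, a ∈ p) : ∃ m, OK nm (p ∪ {Atom.prom ξ γ m}) := by
  let g : Atom K W → ℕ := fun a => match a with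
    | .work _ _ n => n
    | _ => 0
  obtain ⟨L, hL⟩ := (h.fin.image g).bddAbove
  refine ⟨max L (nm ξ γ j).2 + 1, h.fin.union (Set.finite_singleton _), ?_, ?_, ?_, ?_⟩
  · intro γ' i h1 h2
    rcases h1 with h1 | h1
    · rcases h2 with h2 | h2
      · exact h.coh γ' i h1 h2
      · cases h2
    · cases h1
  · intro α β v v' h1 h2
    rcases h1 with h1 | h1
    · rcases h2 with h2 | h2
      · exact h.val α β v v' h1 h2
      · cases h2
    · cases h1
  · intro ξ' s n γ' m h1 h2 hmn
    rcases h1 with h1 | h1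
    · rcases h2 with h2 | h2
      · obtain ⟨i, b, e1, e2⟩ := h.wp ξ' s n γ' m h1 h2 hmn
        exact ⟨i, b, e1, Or.inl e2⟩
      · exfalso
        injection (show _ = Atom.prom ξ γ (max L (nm ξ γ j).2 + 1) from h2) with e1 e2 e3
        have h4 : n ≤ L := hL ⟨_, h1, rfl⟩
        have h5 : L ≤ max L (nm ξ γ j).2 := le_max_left _ _
        omega
    · cases h1
  · intro ξ' γ' m h1
    rcases h1 with h1 | h1
    · obtain ⟨i, e1, e2⟩ := h.cert ξ' γ' m h1
      exact ⟨i, fun a ha => Or.inl (e1 a ha), e2⟩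
    · injection (show _ = Atom.prom ξ γ (max L (nm ξ γ j).2 + 1) from h1) with e1 e2 e3
      subst e1 e2 e3
      exact ⟨j, fun a ha => Or.inl (hj a ha), Nat.lt_succ_of_le (le_max_right _ _)⟩

/-- Extending a condition by a working part which catches the point `γ`. -/
theorem OK.exists_work {nm : Nm K W} {p : Set (Atom K W)} (h : OK nm p) {ξ : W} {γ : K} {n : ℕ}
    (hγ : ∀ m, Atom.prom ξ γ m ∈ p → n < m) :
    ∃ r s, OK nm r ∧ p ⊆ r ∧ Atom.work ξ s n ∈ r ∧
      ∀ i b, s[i]? = some b → Atom.coh γ i b ∈ r := by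
  classical
  obtain ⟨L, hL⟩ := h.exists_level
  let D : ℕ → Bool := fun i => if i = L then true else decide (Atom.coh γ i true ∈ p)
  have hDL : D L = true := if_pos rfl
  have hD : ∀ i, i ≠ L → (D i = true ↔ Atom.coh γ i true ∈ p) := by
    intro i hi
    have : D i = decide (Atom.coh γ i true ∈ p) := if_neg hi
    rw [this, decide_eq_true_iff]
  let s : List Bool := (List.range (L + 1)).map D
  have hs : ∀ i b, s[i]? = some b ↔ i < L + 1 ∧ D i = b := by
    intro i b
    simp only [s, List.getElem?_map]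
    by_cases hi : i < L + 1
    · simp [hi]
    · simp [hi]
  let C : Set (Atom K W) := {a | (∃ i, i < L + 1 ∧ a = Atom.coh γ i (D i)) ∨
    ∃ γ' m, γ' ≠ γ ∧ Atom.prom ξ γ' m ∈ p ∧ a = Atom.coh γ' L false}
  have hCfin : C.Finite := by
    have f1 : {a : Atom K W | ∃ i, i < L + 1 ∧ a = Atom.coh γ i (D i)}.Finite := by
      refine ((Set.finite_lt_nat (L + 1)).image fun i => (Atom.coh γ i (D i) : Atom K W)).subset ?_
      rintro a ⟨i, hi, rfl⟩
      exact ⟨i, hi, rfl⟩
    have f2 : {a : Atom K W | ∃ γ' m, γ' ≠ γ ∧ Atom.prom ξ γ' m ∈ p ∧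
        a = Atom.coh γ' L false}.Finite := by
      let g : Atom K W → Atom K W := fun a => match a with
        | .prom _ γ' _ => Atom.coh γ' L false
        | a => a
      refine (h.fin.image g).subset ?_
      rintro a ⟨γ', m, -, h1, rfl⟩
      exact ⟨_, h1, rfl⟩
    exact (f1.union f2).subset fun a ha => ha
  have hq : OK nm (p ∪ C) := by
    refine h.union_coh hCfin ?_ ?_
    · rintro a (⟨i, -, rfl⟩ | ⟨γ', m, -, -, rfl⟩)
      · exact ⟨_, _, _, rfl⟩
      · exact ⟨_, _, _, rfl⟩
    · intro γ' i h1 h2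
      have hmix : ∀ b, Atom.coh γ' i b ∈ p → Atom.coh γ' i (!b) ∈ C → False := by
        intro b hb hC
        have hi := hL _ _ _ hb
        rcases hC with ⟨i', hi', e⟩ | ⟨γ'', m, -, -, e⟩
        · injection e with e1 e2 e3
          subst e1 e2
          cases b
          · have h3 := (hD i (by omega)).1 e3.symm
            exact h.coh γ' i h3 hb
          · have h3 := (hD i (by omega)).2 hb
            rw [h3] at e3
            cases e3
        · injection e with e1 e2 e3
          omega
      rcases h1 with h1 | h1 <;> rcases h2 with h2 | h2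
      · exact h.coh γ' i h1 h2
      · exact hmix true h1 h2
      · exact hmix false h2 h1
      · rcases h1 with ⟨i', hi', e⟩ | ⟨γ'', m, hne, -, e⟩
        · injection e with e1 e2 e3
          subst e1 e2
          rcases h2 with ⟨i'', hi'', e'⟩ | ⟨γ'', m, hne, -, e'⟩
          · injection e' with e1' e2' e3'
            subst e2'
            rw [← e3] at e3'
            cases e3'
          · injection e' with e1' e2' e3'
            exact hne e1'.symm
        · injection e with e1 e2 e3
          cases e3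
  refine ⟨p ∪ C ∪ {Atom.work ξ s n}, s, ?_, fun a ha => Or.inl (Or.inl ha), Or.inr rfl, ?_⟩
  · have key : ∀ {a : Atom K W}, a ∈ p ∪ C ∪ {Atom.work ξ s n} → (a ≠ Atom.work ξ s n) →
        a ∈ p ∪ C := by
      intro a ha hne
      rcases ha with ha | ha
      · exact ha
      · exact absurd ha hne
    refine ⟨hq.fin.union (Set.finite_singleton _), ?_, ?_, ?_, ?_⟩
    · intro γ' i h1 h2
      exact hq.coh γ' i (key h1 fun e => by cases e) (key h2 fun e => by cases e)
    · intro α β v v' h1 h2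
      exact hq.val α β v v' (key h1 fun e => by cases e) (key h2 fun e => by cases e)
    · intro ξ' s' n' γ' m h1 h2 hmn
      have h2' := key h2 fun e => by cases e
      rcases h1 with h1 | h1
      · obtain ⟨i, b, e1, e2⟩ := hq.wp ξ' s' n' γ' m h1 h2' hmn
        exact ⟨i, b, e1, Or.inl e2⟩
      · injection (show _ = Atom.work ξ s n from h1) with e1 e2 e3
        subst e1 e2 e3
        have h3 : Atom.prom ξ' γ' m ∈ p := by
          rcases h2' with h2' | h2'
          · exact h2'
          · rcases h2' with ⟨_, _, e⟩ | ⟨_, _, _, _, e⟩ <;> cases e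
        have hne : γ' ≠ γ := by
          rintro rfl
          exact absurd (hγ m h3) (not_lt.2 hmn)
        exact ⟨L, true, (hs _ _).2 ⟨by omega, hDL⟩, Or.inl (Or.inr (Or.inr ⟨γ', m, hne, h3, rfl⟩))⟩
    · intro ξ' γ' m h1
      obtain ⟨i, e1, e2⟩ := hq.cert ξ' γ' m (key h1 fun e => by cases e)
      exact ⟨i, fun a ha => Or.inl (e1 a ha), e2⟩
  · intro i b hi
    obtain ⟨h1, h2⟩ := (hs i b).1 hi
    subst h2
    exact Or.inl (Or.inr (Or.inl ⟨i, h1, rfl⟩))

/-- Extending a condition by a value. -/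
theorem OK.insert_val {nm : Nm K W} {p : Set (Atom K W)} (h : OK nm p) {α β : K}
    (hv : ∀ v, Atom.val α β v ∉ p) (n : ℕ) : OK nm (p ∪ {Atom.val α β n}) := by
  have key : ∀ {a : Atom K W}, a ∈ p ∪ {Atom.val α β n} → (a ≠ Atom.val α β n) → a ∈ p := by
    intro a ha hne
    rcases ha with ha | ha
    · exact ha
    · exact absurd ha hne
  refine ⟨h.fin.union (Set.finite_singleton _), ?_, ?_, ?_, ?_⟩
  · intro γ' i h1 h2
    exact h.coh γ' i (key h1 fun e => by cases e) (key h2 fun e => by cases e)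
  · intro α' β' v v' h1 h2
    rcases h1 with h1 | h1 <;> rcases h2 with h2 | h2
    · exact h.val _ _ _ _ h1 h2
    · injection (show _ = Atom.val α β n from h2) with e1 e2 e3
      subst e1 e2
      exact absurd h1 (hv v)
    · injection (show _ = Atom.val α β n from h1) with e1 e2 e3
      subst e1 e2
      exact absurd h2 (hv v')
    · injection (show _ = Atom.val α β n from h1) with e1 e2 e3
      injection (show _ = Atom.val α β n from h2) with e1' e2' e3'
      rw [e3, e3']
  · intro ξ s n' γ m h1 h2 hmn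
    obtain ⟨i, b, e1, e2⟩ := h.wp ξ s n' γ m (key h1 fun e => by cases e)
      (key h2 fun e => by cases e) hmn
    exact ⟨i, b, e1, Or.inl e2⟩
  · intro ξ γ m h1
    obtain ⟨i, e1, e2⟩ := h.cert ξ γ m (key h1 fun e => by cases e)
    exact ⟨i, fun a ha => Or.inl (e1 a ha), e2⟩

end Pool.Agent.U83.DSq
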