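import Mathlib
import Pool.Agent.U83.DSq.Ext

/-!
# Squares of `Δ`-sets: the forcing argument
-/

set_option autoImplicit false

open Set Pool.Agent.Helper669.Forcing

namespace Pool.Agent.U83.DSq

variable {K W : Type}

/-- The notion of forcing. -/
structure Cond (nm : Nm K W) : Type where
  /-- the set of atoms -/
  atoms : Set (Atom K W)
  ok : OK nm atoms

variable {nm : Nm K W}

instance : Preorder (Cond nm) where
  le p q := q.1 ⊆ p.1
  le_refl _ := subset_rfl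
  le_trans _ _ _ h h' := h'.trans h

instance : Nonempty (Cond nm) := ⟨⟨∅, OK.empty nm⟩⟩

theorem le_iff {p q : Cond nm} : p ≤ q ↔ q.1 ⊆ p.1 := Iff.rfl

/-- The names of the Cohen reals. -/
def real (nm : Nm K W) (γ : K) (i : ℕ) : Set (Cond nm) := {p | Atom.coh γ i true ∈ p.1}

theorem down_real (γ : K) (i : ℕ) : Down (real nm γ i) := fun _ hp _ hq => hq hp

theorem down_Digit {P : Type} [Preorder P] (x : ℕ → Set P) (i : ℕ) (b : Bool) :
    Down (Digit x i b) := by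
  cases b
  · exact down_fnot _
  · exact down_meets _

theorem down_Stem {P : Type} [Preorder P] (s : List Bool) (x : ℕ → Set P) : Down (Stem s x) :=
  down_fall fun _ => down_fall fun _ => down_fimp _ _

/-- digits are decided by atoms -/
theorem mem_of_dense {p : Cond nm} {γ : K} {i : ℕ} {b : Bool}
    (h : ∀ q ≤ p, ∃ r ≤ q, Atom.coh γ i b ∈ r.1) : Atom.coh γ i b ∈ p.1 := by
  by_contra hb
  have hok : OK nm (p.1 ∪ {Atom.coh γ i (!b)}) := p.2.insert_coh (by rwa [Bool.not_not])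
  obtain ⟨r, hr, hrb⟩ := h ⟨_, hok⟩ (fun a ha => Or.inl ha)
  exact r.2.coh' hrb (hr (Or.inr rfl))

theorem mem_Digit {p : Cond nm} {γ : K} {i : ℕ} {b : Bool} :
    p ∈ Digit (real nm γ) i b ↔ Atom.coh γ i b ∈ p.1 := by
  cases b with
  | true =>
    constructor
    · intro h
      refine mem_of_dense fun q hq => ?_
      obtain ⟨r, hr, hrn⟩ := exists_of_meets (down_real γ i) (down_meets _ _ h _ hq)
      exact ⟨r, hr, hrn⟩
    · intro h
      exact meets_of_mem h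
  | false =>
    constructor
    · intro h
      by_contra hb
      have hok : OK nm (p.1 ∪ {Atom.coh γ i true}) := p.2.insert_coh hb
      exact h ⟨_, hok⟩ (fun a ha => Or.inl ha) (meets_of_mem (Or.inr rfl))
    · intro h q hq hqm
      obtain ⟨r, hr, hrn⟩ := exists_of_meets (down_real γ i) hqm
      exact r.2.coh γ i hrn (hr (hq h))

theorem mem_Stem {p : Cond nm} {γ : K} {s : List Bool} :
    p ∈ Stem s (real nm γ) ↔ ∀ i b, s[i]? = some b → Atom.coh γ i b ∈ p.1 := by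
  constructor
  · intro h i b hib
    refine mem_of_dense fun q hq => ?_
    obtain ⟨r, hr, hrd⟩ := mem_fimp.1 (h i b) q hq hib
    exact ⟨r, hr, mem_Digit.1 hrd⟩
  · intro h i b
    rw [mem_fimp]
    intro q hq hib
    exact ⟨q, le_rfl, mem_Digit.2 (hq (h i b hib))⟩

/-- Different Cohen reals differ. -/
theorem mem_Distinct {γ γ' : K} (hne : γ ≠ γ') (p : Cond nm) :
    p ∈ Distinct (real nm γ) (real nm γ') := by
  unfold Distinct
  rw [mem_fex]
  intro q _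
  obtain ⟨L, hL⟩ := q.2.exists_level
  have h1 : OK nm (q.1 ∪ {Atom.coh γ L true}) :=
    q.2.insert_coh fun h => absurd (hL _ _ _ h) (lt_irrefl L)
  have h2 : OK nm (q.1 ∪ {Atom.coh γ L true} ∪ {Atom.coh γ' L false}) := by
    refine h1.insert_coh ?_
    rintro (h | h)
    · exact absurd (hL _ _ _ h) (lt_irrefl L)
    · injection (show _ = Atom.coh γ L true from h) with e1
      exact hne e1.symm
  refine ⟨⟨_, h2⟩, fun a ha => Or.inl (Or.inl ha), L, ?_⟩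
  refine mem_fex_of_mem true (down_fand (down_Digit _ _ _) (down_Digit _ _ _)) ⟨?_, ?_⟩
  · exact mem_Digit.2 (Or.inl (Or.inr rfl))
  · exact mem_Digit.2 (Or.inr rfl)

/-! ### The set of the Cohen reals is a `Δ`-set -/

theorem disj_of_partition {T : Type} {Z : ℕ → T → Set (Cond nm)} {p : Cond nm}
    (hZ : p ∈ IsPartition Z) {q : Cond nm} (hq : q ≤ p) {t : T} {n n' : ℕ}
    (h1 : q ∈ meets (Z n t)) (h2 : q ∈ meets (Z n' t)) : n = n' := by
  obtain ⟨r, -, hr⟩ := mem_fimp.1 (hZ.2 t n n') q hq ⟨h1, h2⟩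
  exact hr

/-- Every name of a function is represented by a function which lists the members of countable
predense sets. -/
theorem exists_list {Z : ℕ → K → Set (Cond nm)} {p : Cond nm} (hZ : p ∈ IsPartition Z) (γ : K) :
    ∃ f : ℕ → Finset (Atom K W) × ℕ,
      (∀ i, ∃ c : Cond nm, c.1 = ((f i).1 : Set (Atom K W)) ∧ c ≤ p ∧ c ∈ meets (Z (f i).2 γ)) ∧
      ∀ q ≤ p, ∀ n, q ∈ meets (Z n γ) → ∃ i, ∃ r ≤ q, ∀ a ∈ (f i).1, a ∈ r.1 := by
  classical
  let D : Set (Set (Atom K W)) := {c | ∃ h : OK nm c, (⟨c, h⟩ : Cond nm) ≤ p ∧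
    ∃ n, (⟨c, h⟩ : Cond nm) ∈ meets (Z n γ)}
  obtain ⟨A, hAD, hA, hpre⟩ := exists_predense (nm := nm) D fun c hc => hc.choose
  have hmem : ∀ q ≤ p, ∀ n, q ∈ meets (Z n γ) → q.1 ∈ D := fun q hq n h => ⟨q.2, hq, n, h⟩
  have hne : A.Nonempty := by
    obtain ⟨q, hq, n, hn⟩ := mem_fex.1 (hZ.1 γ) p le_rfl
    obtain ⟨a, ha, -⟩ := hpre q.1 (hmem q hq n hn)
    exact ⟨a, ha⟩
  obtain ⟨e, he⟩ := hA.exists_eq_range hne
  have heD : ∀ i, e i ∈ D := fun i => hAD (by rw [he]; exact ⟨i, rfl⟩)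
  choose hok hle v hv using heD
  refine ⟨fun i => ((hok i).fin.toFinset, v i), ?_, ?_⟩
  · intro i
    refine ⟨⟨e i, hok i⟩, ?_, hle i, hv i⟩
    exact ((hok i).fin.coe_toFinset).symm
  · intro q hq n hn
    obtain ⟨a, ha, r, hr, h1, h2⟩ := hpre q.1 (hmem q hq n hn)
    rw [he] at ha
    obtain ⟨i, rfl⟩ := ha
    refine ⟨i, ⟨r, hr⟩, h1, ?_⟩
    intro a ha
    exact h2 ((Set.Finite.mem_toFinset _).1 ha)

/-- **The set of the Cohen reals is a `Δ`-set.** -/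
theorem delta (hnm : ∀ f : K → ℕ → Finset (Atom K W) × ℕ, ∃ ξ, nm ξ = f) (p : Cond nm) :
    p ∈ Expandable (In1 (real nm)) := by
  classical
  intro Z
  rw [mem_fimp]
  intro p₀ _ hZ
  refine ⟨p₀, le_rfl, ?_⟩
  choose F hF1 hF2 using fun γ => exists_list hZ γ
  obtain ⟨ξ, hξ⟩ := hnm F
  have hξ' : ∀ γ i, nm ξ γ i = F γ i := fun γ i => by rw [hξ]
  -- certificates
  have hcert : ∀ q ≤ p₀, ∀ γ i, (∀ a ∈ (F γ i).1, a ∈ q.1) → q ∈ meets (Z (F γ i).2 γ) := by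
    intro q hq γ i h
    obtain ⟨c, hc1, -, hc2⟩ := hF1 γ i
    refine down_meets _ _ hc2 _ ?_
    show c.1 ⊆ q.1
    rw [hc1]
    exact h
  let U : ℕ → List Bool → Set (Cond nm) := fun n s => {q | Atom.work ξ s n ∈ q.1}
  have hUdown : ∀ n s, Down (U n s) := fun n s p hp q hq => hq hp
  refine mem_fex_of_mem U (down_fand (down_fall fun _ => down_fall fun _ => down_fimp _ _)
    (down_fall fun _ => down_fex _)) ⟨?_, ?_⟩
  · intro n γ
    rw [mem_fimp]
    intro q hq hqn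
    obtain ⟨i, q₁, hq₁, hi⟩ := hF2 γ q hq n hqn
    have hvn : (F γ i).2 = n := disj_of_partition hZ (hq₁.trans hq)
      (hcert q₁ (hq₁.trans hq) γ i hi) (down_meets _ _ hqn _ hq₁)
    have hpr : ∀ m, Atom.prom ξ γ m ∈ q₁.1 → n < m := by
      intro m hm
      obtain ⟨j, hj1, hj2⟩ := q₁.2.cert ξ γ m hm
      rw [hξ'] at hj1 hj2
      have : (F γ j).2 = n := disj_of_partition hZ (hq₁.trans hq)
        (hcert q₁ (hq₁.trans hq) γ j hj1) (down_meets _ _ hqn _ hq₁)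
      omega
    obtain ⟨r, s, hr, h1, h2, h3⟩ := q₁.2.exists_work hpr
    refine ⟨⟨r, hr⟩, fun a ha => h1 (hq₁ ha), ?_⟩
    refine mem_fex_of_mem s (down_fand (down_meets _) (down_Stem _ _)) ⟨?_, ?_⟩
    · exact meets_of_mem h2
    · exact mem_Stem.2 h3
  · intro γ
    rw [mem_fex]
    intro q hq
    obtain ⟨q', hq', n, hn⟩ := mem_fex.1 (hZ.1 γ) q hq
    obtain ⟨i, q₁, hq₁, hi⟩ := hF2 γ q' (hq'.trans hq) n hn
    have hi' : ∀ a ∈ (nm ξ γ i).1, a ∈ q₁.1 := by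
      rw [hξ']
      exact hi
    obtain ⟨m, hm⟩ := q₁.2.exists_prom hi'
    refine ⟨⟨_, hm⟩, fun a ha => Or.inl (hq₁ (hq' ha)), m, ?_⟩
    intro n'
    refine mem_fimp.2 ?_
    intro q₂ hq₂ hmn
    refine ⟨q₂, le_rfl, ?_⟩
    intro q₃ hq₃ hin
    obtain ⟨q₄, hq₄, s, hs1, hs2⟩ := mem_fex.1 hin q₃ le_rfl
    obtain ⟨q₅, hq₅, hw⟩ := exists_of_meets (hUdown n' s) hs1
    have hp5 : Atom.prom ξ γ m ∈ q₅.1 := hq₅ (hq₄ (hq₃ (hq₂ (Or.inr rfl))))
    obtain ⟨j, b, e1, e2⟩ := q₅.2.wp ξ s n' γ m hw hp5 hmn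
    exact q₅.2.coh' (hq₅ (mem_Stem.1 hs2 j b e1)) e2

/-! ### The square of the set of the Cohen reals is not a `Δ`-set -/

/-- **The square of the set of the Cohen reals is not a `Δ`-set.** -/
theorem not_delta_sq [Nonempty K] (hK : Cardinal.aleph 2 ≤ Cardinal.mk K) (p : Cond nm) :
    p ∉ Expandable (In2 (real nm)) := by
  classical
  intro hp
  let Z : ℕ → K × K → Set (Cond nm) := fun n x => {q | Atom.val x.1 x.2 n ∈ q.1}
  have hZdown : ∀ n x, Down (Z n x) := fun n x p hp q hq => hq hp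
  have hpart : p ∈ IsPartition Z := by
    refine ⟨?_, ?_⟩
    · intro x
      rw [mem_fex]
      intro q _
      by_cases h : ∃ v, Atom.val x.1 x.2 v ∈ q.1
      · obtain ⟨v, hv⟩ := h
        exact ⟨q, le_rfl, v, meets_of_mem hv⟩
      · push Not at h
        exact ⟨⟨_, q.2.insert_val h 0⟩, fun a ha => Or.inl ha, 0, meets_of_mem (Or.inr rfl)⟩
    · intro x n n'
      rw [mem_fimp]
      rintro q - ⟨h1, h2⟩
      obtain ⟨q₁, hq₁, h1'⟩ := exists_of_meets (hZdown n x) h1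
      obtain ⟨q₂, hq₂, h2'⟩ := exists_of_meets (hZdown n' x) (down_meets _ _ h2 _ hq₁)
      exact ⟨q, le_rfl, q₂.2.val _ _ _ _ (hq₂ h1') h2'⟩
  obtain ⟨p₁, hp₁, h⟩ := mem_fimp.1 (hp Z) p le_rfl hpart
  obtain ⟨p₂, hp₂, U, hU1, hU2⟩ := mem_fex.1 h p₁ le_rfl
  -- countable predense sets
  have hpre : ∀ (n : ℕ) (s : List Bool × List Bool), ∃ A : Set (Set (Atom K W)),
      (∀ c ∈ A, ∃ h : OK nm c, (⟨c, h⟩ : Cond nm) ∈ meets (U n s)) ∧ A.Countable ∧
      ∀ q : Cond nm, q ∈ meets (U n s) → ∃ c ∈ A, ∃ r : Cond nm, r ≤ q ∧ c ⊆ r.1 := by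
    intro n s
    obtain ⟨A, hAD, hA, hpre⟩ := exists_predense (nm := nm)
      {c | ∃ h : OK nm c, (⟨c, h⟩ : Cond nm) ∈ meets (U n s)} fun c hc => hc.choose
    refine ⟨A, fun c hc => hAD hc, hA, ?_⟩
    intro q hq
    obtain ⟨c, hc, r, hr, h1, h2⟩ := hpre q.1 ⟨q.2, hq⟩
    exact ⟨c, hc, ⟨r, hr⟩, h1, h2⟩
  choose A hA1 hA2 hA3 using hpre
  -- the countable set of indices
  let S₀ : Set (Idx K W) := ixs p₂.1 ∪ ⋃ n, ⋃ s, ⋃ c ∈ A n s, ixs c
  have hS₀ : S₀.Countable := by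
    refine (ixs_finite p₂.2.fin).countable.union ?_
    refine Set.countable_iUnion fun n => Set.countable_iUnion fun s => ?_
    refine (hA2 n s).biUnion fun c hc => ?_
    obtain ⟨hok, -⟩ := hA1 n s c hc
    exact (ixs_finite hok.fin).countable
  obtain ⟨S, hS₀S, hS, hcl, hcop⟩ := exists_copies nm hS₀
  choose B hB1 hB2 hB3 using fun γ : K => exists_closure nm
    (hS.union (Set.countable_singleton (Sum.inl γ : Idx K W)))
  obtain ⟨α, β, hne, hα, hβ, hAα, hAβ⟩ := free_pair hK hS B hB2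
  -- the condition which decides where point-finiteness starts
  obtain ⟨r, hr, m, hm⟩ := mem_fex.1 (hU2 (α, β)) p₂ le_rfl
  obtain ⟨r', hr', hm'⟩ := mem_fimp.1 (hm m) r le_rfl (le_refl m)
  obtain ⟨q, hq, hrq, hval, hswap⟩ := swap (A := B α) (B := B β) hcl hcop (hB3 α) (hB3 β)
    (fun x hx => hB1 α (Or.inl hx)) (fun x hx => hB1 β (Or.inl hx)) (hB1 α (Or.inr rfl))
    (hB1 β (Or.inr rfl)) hα hβ hne hAα hAβ r'.2 m
  have hqp : (⟨q, hq⟩ : Cond nm) ≤ p₂ := by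
    intro a ha
    refine hrq ⟨hr' (hr ha), inS_mono (fun x hx => hS₀S (Or.inl hx)) (inS_ixs ha)⟩
  obtain ⟨q₁, hq₁, hin⟩ := mem_fimp.1 (hU1 m (α, β)) ⟨q, hq⟩ hqp (meets_of_mem hval)
  obtain ⟨q₂, hq₂, s, hs1, hs2, hs3⟩ := mem_fex.1 hin q₁ le_rfl
  obtain ⟨c, hc, q₃, hq₃, hcq⟩ := hA3 m s q₂ hs1
  obtain ⟨r₁, hr₁, hrr₁, hres, hcα, hcβ⟩ := hswap q₃.1 q₃.2 (fun a ha => hq₃ (hq₂ (hq₁ ha)))
  -- the condition `r₁` forces that the point is in the open set
  refine hm' ⟨r₁, hr₁⟩ hrr₁ ?_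
  refine mem_fex_of_mem s (down_fand (down_meets _) (down_fand (down_Stem _ _) (down_Stem _ _)))
    ⟨?_, ?_, ?_⟩
  · obtain ⟨hok, hmeet⟩ := hA1 m s c hc
    refine down_meets _ _ hmeet _ ?_
    intro a ha
    refine hres ⟨hcq ha, inS_mono (fun x hx => hS₀S (Or.inr ?_)) (inS_ixs ha)⟩
    exact Set.mem_iUnion.2 ⟨m, Set.mem_iUnion.2 ⟨s, Set.mem_biUnion hc hx⟩⟩
  · exact mem_Stem.2 fun i b hi => hcα i b (hq₃ (mem_Stem.1 hs2 i b hi))
  · exact mem_Stem.2 fun i b hi => hcβ i b (hq₃ (mem_Stem.1 hs3 i b hi))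

/-- **There is a notion of forcing which forces the sentence.** -/
theorem exists_forcing : ∃ (P : Type) (_ : Preorder P), Nonempty P ∧ ∀ p : P, p ∈ DeltaSquare P := by
  classical
  let K : Type := (Cardinal.aleph 2).out
  have hK : Cardinal.mk K = Cardinal.aleph 2 := Cardinal.mk_out _
  have hinf : Infinite K := Cardinal.infinite_iff.2 (by rw [hK]; exact Cardinal.aleph0_le_aleph 2)
  obtain ⟨nm, hnm⟩ := exists_nm K
  refine ⟨Cond nm, inferInstance, inferInstance, fun p => ?_⟩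
  refine mem_fex_of_mem K (down_fex _) ?_
  refine mem_fex_of_mem (real nm) (down_fand (down_fall fun _ => down_fall fun _ => down_fimp _ _)
    (down_fand (down_fall fun _ => down_fimp _ _) (down_fnot _))) ⟨?_, ?_, ?_⟩
  · intro k k'
    rw [mem_fimp]
    intro q _ hne
    exact ⟨q, le_rfl, mem_Distinct hne q⟩
  · exact delta hnm p
  · intro q _
    exact not_delta_sq hK.ge q

end Pool.Agent.U83.DSq
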